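import Mathlib

/-!
# Definitions for the local complex Monge-Ampère flow

Everything takes place in `ℂⁿ = EuclideanSpace ℂ (Fin n)`.
-/

open Set Filter Topology MeasureTheory
open scoped ComplexOrder

noncomputable section

namespace Pool.Agent.NH66.MAFlow

/-- `ℂⁿ` -/
abbrev Cn (n : ℕ) := EuclideanSpace ℂ (Fin n)

variable {n : ℕ}

/-- The unit vector `e_i` (direction of `x_i`, where `z_i = x_i + √-1 y_i`). -/
def ex (i : Fin n) : Cn n := EuclideanSpace.single i 1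

/-- The vector `√-1 e_i` (direction of `y_i`). -/
def ey (i : Fin n) : Cn n := EuclideanSpace.single i Complex.I

/-- The real second derivative `D²f(z)(v, w)`. -/
def D2 (f : Cn n → ℝ) (z v w : Cn n) : ℝ := fderiv ℝ (fderiv ℝ f) z v w

/-- The complex Hessian `∂²f/∂z_i∂\bar z_j`, that is
`¼ (f_{x_i x_j} + f_{y_i y_j} + √-1 (f_{x_i y_j} - f_{y_i x_j}))`. -/
def cHess (f : Cn n → ℝ) (z : Cn n) : Matrix (Fin n) (Fin n) ℂ :=
  Matrix.of fun i j => (1 / 4 : ℂ) *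
    (((D2 f z (ex i) (ex j) + D2 f z (ey i) (ey j) : ℝ) : ℂ) +
      Complex.I * ((D2 f z (ex i) (ey j) - D2 f z (ey i) (ex j) : ℝ) : ℂ))

/-- `Ω` is a bounded strictly pseudoconvex domain with smooth boundary: it is a bounded, open and
connected set, given as `{ρ < 0}` by a smooth strictly plurisubharmonic function `ρ`, defined on a
neighbourhood of the closure of `Ω`, with `dρ ≠ 0` on the boundary. -/
def IsStrictlyPseudoconvexDomain (Ω : Set (Cn n)) : Prop :=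
  IsOpen Ω ∧ IsConnected Ω ∧ Bornology.IsBounded Ω ∧
    ∃ (U : Set (Cn n)) (ρ : Cn n → ℝ), IsOpen U ∧ closure Ω ⊆ U ∧ ContDiffOn ℝ (⊤ : ℕ∞) ρ U ∧
      (∀ z ∈ U, (cHess ρ z).PosDef) ∧ Ω = {z | z ∈ U ∧ ρ z < 0} ∧
      ∀ z ∈ frontier Ω, fderiv ℝ ρ z ≠ 0

/-- `u : U → [-∞, ∞)` is plurisubharmonic on the open set `U`: it is upper semicontinuous, and the
sub-mean value inequality `u(a) ≤ (1/2π) ∫₀^{2π} u(a + e^{iθ} b) dθ` holds for every closed disc
`{a + λ b : |λ| ≤ 1}` in `U`. As `u` may take the value `-∞`, the inequality is written for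
`M - u ≥ 0`, where `M` is any real upper bound of `u` on the circle. -/
def IsPSH (U : Set (Cn n)) (u : Cn n → EReal) : Prop :=
  (∀ z ∈ U, u z < ⊤) ∧ UpperSemicontinuousOn u U ∧
    ∀ a b : Cn n, (∀ l : ℂ, ‖l‖ ≤ 1 → a + l • b ∈ U) →
      ∀ M : ℝ, (∀ l : ℂ, ‖l‖ = 1 → u (a + l • b) ≤ (M : EReal)) →
        ∫⁻ θ in Icc (0 : ℝ) (2 * Real.pi),
            ((M : EReal) - u (a + Complex.exp (θ * Complex.I) • b)).toENNReal ≤
          ENNReal.ofReal (2 * Real.pi) * ((M : EReal) - u a).toENNReal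

/-- The data of the problem: `Ω` is a bounded strictly pseudoconvex domain with smooth boundary,
`T > 0`, `u₀` is plurisubharmonic on a neighbourhood of the closure of `Ω` (and not identically
`-∞` there), `φ` is smooth on `closure Ω × [0, T)` and equals `u₀` on `∂Ω × [0, T)`. -/
structure IsData (Ω : Set (Cn n)) (T : ℝ) (u₀ : Cn n → EReal) (φ : Cn n → ℝ → ℝ) : Prop where
  domain : IsStrictlyPseudoconvexDomain Ω
  pos : 0 < T
  psh : ∃ U : Set (Cn n), IsOpen U ∧ closure Ω ⊆ U ∧ IsPSH U u₀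
  smooth : ContDiffOn ℝ (⊤ : ℕ∞) (fun p : Cn n × ℝ => φ p.1 p.2) (closure Ω ×ˢ Ico 0 T)
  boundary : ∀ z ∈ frontier Ω, ∀ t ∈ Ico (0 : ℝ) T, ((φ z t : ℝ) : EReal) = u₀ z

/-- `u` is a solution of the flow on `Ω × (0, T)` with initial datum `u₀` and boundary data `φ`:
it is smooth on `closure Ω × (0, T)` and
1. `u(·, t)` is strictly plurisubharmonic in `Ω` for every `t ∈ (0, T)`;
2. `∂u/∂t = log det (∂²u/∂z_i∂\bar z_j)` on `Ω × (0, T)`;
3. `u = φ` on `∂Ω × (0, T)`;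
4. `u(z, t) → u₀(z)` in `[-∞, ∞]` as `t → 0+`, for every `z` in the closure of `Ω`. -/
structure IsSolution (Ω : Set (Cn n)) (T : ℝ) (u₀ : Cn n → EReal) (φ : Cn n → ℝ → ℝ)
    (u : Cn n → ℝ → ℝ) : Prop where
  smooth : ContDiffOn ℝ (⊤ : ℕ∞) (fun p : Cn n × ℝ => u p.1 p.2) (closure Ω ×ˢ Ioo 0 T)
  strict : ∀ t ∈ Ioo (0 : ℝ) T, ∀ z ∈ Ω, (cHess (fun w => u w t) z).PosDef
  flow : ∀ t ∈ Ioo (0 : ℝ) T, ∀ z ∈ Ω,
    deriv (fun s => u z s) t = Real.log ((cHess (fun w => u w t) z).det.re)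
  boundary : ∀ t ∈ Ioo (0 : ℝ) T, ∀ z ∈ frontier Ω, u z t = φ z t
  initial : ∀ z ∈ closure Ω, Tendsto (fun t => ((u z t : ℝ) : EReal)) (𝓝[>] 0) (𝓝 (u₀ z))

end Pool.Agent.NH66.MAFlow
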