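import Pool.Agent.NH66.MAFlow.Local

/-!
# Upper bound, comparison with the barrier
-/

open Set Filter Topology MeasureTheory Metric
open scoped ComplexOrder

noncomputable section

namespace Pool.Agent.NH66.MAFlow

variable {n : ℕ} {Ω : Set (Cn n)} {T : ℝ} {u₀ : Cn n → EReal} {φ u : Cn n → ℝ → ℝ}

theorem joint_contDiffAt (hΩ : IsOpen Ω) (hS : IsSolution Ω T u₀ φ u) {t : ℝ} (ht : t ∈ Ioo 0 T)
    {z : Cn n} (hz : z ∈ Ω) : ContDiffAt ℝ 2 (fun p : Cn n × ℝ => u p.1 p.2) (z, t) := by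
  have h1 : ContDiffAt ℝ (⊤ : ℕ∞) (fun p : Cn n × ℝ => u p.1 p.2) (z, t) := by
    refine hS.smooth.contDiffAt ?_
    have h2 : Ω ×ˢ Ioo 0 T ∈ 𝓝 (z, t) := (hΩ.prod isOpen_Ioo).mem_nhds ⟨hz, ht⟩
    exact mem_of_superset h2 (prod_mono subset_closure subset_rfl)
  exact h1.of_le (WithTop.coe_le_coe.2 (le_top : (2 : ℕ∞) ≤ ⊤))

theorem slice_contDiffAt (hΩ : IsOpen Ω) (hS : IsSolution Ω T u₀ φ u) {t : ℝ} (ht : t ∈ Ioo 0 T)
    {z : Cn n} (hz : z ∈ Ω) : ContDiffAt ℝ 2 (fun w => u w t) z :=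
  (joint_contDiffAt hΩ hS ht hz).comp z (contDiffAt_id.prodMk contDiffAt_const)

theorem time_hasDerivAt (hΩ : IsOpen Ω) (hS : IsSolution Ω T u₀ φ u) {t : ℝ} (ht : t ∈ Ioo 0 T)
    {z : Cn n} (hz : z ∈ Ω) :
    HasDerivAt (fun s => u z s) (Real.log ((cHess (fun w => u w t) z).det.re)) t := by
  rw [← hS.flow t ht z hz]
  have h1 : DifferentiableAt ℝ (fun p : Cn n × ℝ => u p.1 p.2) (z, t) :=
    (joint_contDiffAt hΩ hS ht hz).differentiableAt (by norm_num)
  have h2 : DifferentiableAt ℝ (fun s : ℝ => ((z, s) : Cn n × ℝ)) t :=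
    (differentiableAt_const z).prodMk differentiableAt_id
  exact (DifferentiableAt.comp t h1 h2).hasDerivAt

theorem slice_continuousOn (hS : IsSolution Ω T u₀ φ u) {t : ℝ} (ht : t ∈ Ioo 0 T) :
    ContinuousOn (fun w => u w t) (closure Ω) := by
  have h1 : ContinuousOn (fun p : Cn n × ℝ => u p.1 p.2) (closure Ω ×ˢ Ioo 0 T) :=
    hS.smooth.continuousOn
  exact h1.comp (f := fun w => (w, t)) (by fun_prop) (fun w hw => ⟨hw, ht⟩)

theorem laplacian_pos (hn : 1 ≤ n) (hS : IsSolution Ω T u₀ φ u) {t : ℝ} (ht : t ∈ Ioo 0 T)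
    {z : Cn n} (hz : z ∈ Ω) : 0 < ∑ k, D2 (fun w => u w t) z (vk k) (vk k) := by
  have h1 := (log_det_le hn _ (hS.strict t ht z hz)).1
  rw [trace_cHess] at h1
  linarith

theorem no_interior_max (hn : 1 ≤ n) (hΩ : IsOpen Ω) (hS : IsSolution Ω T u₀ φ u) {t : ℝ}
    (ht : t ∈ Ioo 0 T) {z : Cn n} (hz : z ∈ Ω) (hmax : IsLocalMax (fun w => u w t) z) : False := by
  have h1 := laplacian_pos hn hS ht hz
  have h2 : ∑ k, D2 (fun w => u w t) z (vk k) (vk k) ≤ 0 := by
    refine Finset.sum_nonpos fun k _ => ?_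
    obtain ⟨p, hp, hq⟩ := line_data (slice_contDiffAt hΩ hS ht hz) (vk k)
    refine second_deriv_nonpos (h := fun s : ℝ => u (z + s • vk k) t) ?_ hp hq
    have hc : ContinuousAt (fun s : ℝ => z + s • (vk k : Cn n)) 0 := by fun_prop
    have h3 := hc.eventually (p := fun w => u w t ≤ u z t) (by
      have h4 : ∀ᶠ w in 𝓝 z, u w t ≤ u z t := hmax
      simpa using h4)
    have h5 : u (z + (0 : ℝ) • vk k) t = u z t := by simp
    show ∀ᶠ s in 𝓝 (0 : ℝ), u (z + s • vk k) t ≤ u (z + (0 : ℝ) • vk k) t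
    rw [h5]
    exact h3
  linarith

/-- The solution is bounded above on `closure Ω × (0, T₁]`. -/
theorem upper_bound (hn : 1 ≤ n) (hD : IsData Ω T u₀ φ) (hS : IsSolution Ω T u₀ φ u) {T₁ : ℝ}
    (hT₁ : T₁ < T) : ∃ M : ℝ, ∀ t ∈ Ioc (0 : ℝ) T₁, ∀ z ∈ closure Ω, u z t ≤ M := by
  obtain ⟨hΩ, hconn, hbdd, -⟩ := hD.domain
  have hcomp : IsCompact (closure Ω) := hbdd.isCompact_closure
  have hfr : frontier Ω ⊆ closure Ω := frontier_subset_closure
  have hfc : IsCompact (frontier Ω) := hcomp.of_isClosed_subset isClosed_frontier hfr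
  have hφ : ContinuousOn (fun p : Cn n × ℝ => φ p.1 p.2) (frontier Ω ×ˢ Icc 0 T₁) :=
    hD.smooth.continuousOn.mono (prod_mono hfr fun t ht => ⟨ht.1, ht.2.trans_lt hT₁⟩)
  obtain ⟨M, hM⟩ := (hfc.prod isCompact_Icc).exists_bound_of_continuousOn hφ
  refine ⟨M, fun t ht z hz => ?_⟩
  have ht' : t ∈ Ioo 0 T := ⟨ht.1, ht.2.trans_lt hT₁⟩
  obtain ⟨y, hy, hymax⟩ := hcomp.exists_isMaxOn ⟨z, hz⟩ (slice_continuousOn hS ht')
  refine (hymax hz).trans ?_
  by_cases hyΩ : y ∈ Ω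
  · exfalso
    refine no_interior_max hn hΩ hS ht' hyΩ ?_
    filter_upwards [hΩ.mem_nhds hyΩ] with w hw using hymax (subset_closure hw)
  · have hyf : y ∈ frontier Ω := by
      rw [hΩ.frontier_eq]
      exact ⟨hy, hyΩ⟩
    show u y t ≤ M
    rw [hS.boundary t ht' y hyf]
    exact (le_abs_self _).trans (hM (y, t) ⟨hyf, ht.1.le, ht.2⟩)

/-- second derivative of the barrier along a unit vector -/
theorem barrier_line (y v : Cn n) (hv : ‖v‖ = 1) (a η C : ℝ) (ha : 0 ≤ a) (hη : 0 < η) :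
    ∃ (p : ℝ → ℝ) (q : ℝ),
      (∀ s, HasDerivAt (fun s : ℝ => a / 2 * Real.log (‖y + s • v‖ ^ 2 + η ^ 2) + C) (p s) s) ∧
      HasDerivAt p q 0 ∧ q ≤ a / (‖y‖ ^ 2 + η ^ 2) := by
  have hq : ∀ s : ℝ, ‖y + s • v‖ ^ 2 + η ^ 2 = ‖y‖ ^ 2 + 2 * s * inner ℝ y v + s ^ 2 + η ^ 2 := by
    intro s
    rw [norm_add_sq_real, inner_smul_right, norm_smul, hv, Real.norm_eq_abs, mul_one, sq_abs]
    ring
  have hpos : ∀ s : ℝ, 0 < ‖y‖ ^ 2 + 2 * s * inner ℝ y v + s ^ 2 + η ^ 2 := by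
    intro s
    rw [← hq]
    positivity
  have hQ : ∀ s : ℝ, HasDerivAt (fun s : ℝ => ‖y‖ ^ 2 + 2 * s * inner ℝ y v + s ^ 2 + η ^ 2)
      (2 * inner ℝ y v + 2 * s) s := by
    intro s
    have h1 : HasDerivAt (fun s : ℝ => 2 * s * inner ℝ y v) (2 * inner ℝ y v) s := by
      simpa using ((hasDerivAt_id s).const_mul 2).mul_const (inner ℝ y v)
    have h2 : HasDerivAt (fun s : ℝ => s ^ 2) (2 * s) s := by
      simpa using hasDerivAt_pow 2 s
    exact ((h1.const_add _).add h2).add_const _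
  refine ⟨fun s => a / 2 * ((2 * inner ℝ y v + 2 * s) /
    (‖y‖ ^ 2 + 2 * s * inner ℝ y v + s ^ 2 + η ^ 2)),
    a / 2 * ((2 * (‖y‖ ^ 2 + η ^ 2) - (2 * inner ℝ y v) * (2 * inner ℝ y v)) /
      (‖y‖ ^ 2 + η ^ 2) ^ 2), ?_, ?_, ?_⟩
  · intro s
    simp_rw [hq]
    exact (((hQ s).log (hpos s).ne').const_mul (a / 2)).add_const C
  · have h3 : HasDerivAt (fun s : ℝ => 2 * inner ℝ y v + 2 * s) 2 0 := by
      simpa using ((hasDerivAt_id (0 : ℝ)).const_mul 2).const_add (2 * inner ℝ y v)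
    have h4 := (h3.div (hQ 0) (hpos 0).ne').const_mul (a / 2)
    simpa using h4
  · have hρ : 0 < ‖y‖ ^ 2 + η ^ 2 := by positivity
    set ρ := ‖y‖ ^ 2 + η ^ 2
    have h5 : (2 * ρ - (2 * inner ℝ y v) * (2 * inner ℝ y v)) / ρ ^ 2 ≤ 2 / ρ := by
      rw [div_le_div_iff₀ (by positivity) hρ]
      nlinarith [mul_nonneg hρ.le (mul_self_nonneg (2 * inner ℝ y v))]
    calc a / 2 * ((2 * ρ - (2 * inner ℝ y v) * (2 * inner ℝ y v)) / ρ ^ 2)
        ≤ a / 2 * (2 / ρ) := mul_le_mul_of_nonneg_left h5 (by positivity)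
      _ = a / ρ := by ring

/-- **Comparison** with the barrier on a small ball. -/
theorem comparison (hn : 1 ≤ n) (hΩ : IsOpen Ω) (hS : IsSolution Ω T u₀ φ u) {z₀ : Cn n}
    {r c K M η t₀ t₁ : ℝ} (hr : 0 < r) (hr1 : r ≤ 1) (hball : closedBall z₀ r ⊆ Ω)
    (hη : 0 < η) (ht₀ : 0 < t₀) (ht₁ : t₁ < T) (hsmall : 2 * n * (t₁ - t₀) < c)
    (hM : ∀ t ∈ Ioc (0 : ℝ) t₁, ∀ z ∈ closure Ω, u z t ≤ M) (hK : M ≤ c * Real.log r + K)
    (hinit : ∀ z ∈ closedBall z₀ r,
      u z t₀ ≤ c / 2 * Real.log (‖z - z₀‖ ^ 2 + η ^ 2) + K + η) :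
    ∀ z ∈ closedBall z₀ r, ∀ t ∈ Icc t₀ t₁,
      u z t ≤ (c - 2 * n * (t - t₀)) / 2 * Real.log (‖z - z₀‖ ^ 2 + η ^ 2) +
        ((n * |Real.log (c / 2)| + 1) * (t - t₀) + K + η) := by
  set A : ℝ := n * |Real.log (c / 2)| + 1 with hA
  have hA0 : 0 < A := by positivity
  by_contra hcon
  push Not at hcon
  obtain ⟨z₁, hz₁, s₁, hs₁, hlt⟩ := hcon
  set V : Cn n × ℝ → ℝ := fun p => (c - 2 * n * (p.2 - t₀)) / 2 *
    Real.log (‖p.1 - z₀‖ ^ 2 + η ^ 2) + (A * (p.2 - t₀) + K + η) with hV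
  have hVc : Continuous V := by
    have : Continuous fun p : Cn n × ℝ => Real.log (‖p.1 - z₀‖ ^ 2 + η ^ 2) := by
      refine Continuous.log (by fun_prop) fun p => ?_
      positivity
    fun_prop
  have hcont : ContinuousOn (fun p : Cn n × ℝ => u p.1 p.2 - V p)
      (closedBall z₀ r ×ˢ Icc t₀ t₁) := by
    refine ContinuousOn.sub ?_ hVc.continuousOn
    refine hS.smooth.continuousOn.mono (prod_mono (hball.trans subset_closure) ?_)
    exact fun t ht => ⟨ht₀.trans_le ht.1, ht.2.trans_lt ht₁⟩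
  obtain ⟨⟨z, t⟩, ⟨hz, ht⟩, hmax⟩ := ((isCompact_closedBall z₀ r).prod isCompact_Icc).exists_isMaxOn
    ⟨(z₁, s₁), hz₁, hs₁⟩ hcont
  simp only at hz ht
  have hpos : 0 < u z t - V (z, t) := by
    refine lt_of_lt_of_le ?_ (hmax (show (z₁, s₁) ∈ _ from ⟨hz₁, hs₁⟩))
    simp only [hV]
    linarith
  have ht' : t ∈ Ioo 0 T := ⟨ht₀.trans_le ht.1, ht.2.trans_lt ht₁⟩
  set a : ℝ := c - 2 * n * (t - t₀) with ha
  have hn0 : (0 : ℝ) < n := by exact_mod_cast hn
  have hapos : 0 < a := by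
    have : 2 * n * (t - t₀) ≤ 2 * n * (t₁ - t₀) := by
      have := ht.2
      gcongr
    linarith
  have hac : a ≤ c := by
    have : 0 ≤ 2 * n * (t - t₀) := by
      have := ht.1
      have : 0 ≤ t - t₀ := by linarith
      positivity
    linarith
  -- not at the initial time
  have htne : t₀ < t := by
    rcases ht.1.lt_or_eq with h | h
    · exact h
    · exfalso
      have h1 := hinit z hz
      simp only [hV] at hpos
      rw [← h] at hpos
      simp only [sub_self, mul_zero, sub_zero, zero_add] at hpos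
      linarith
  -- not on the sphere
  have hzlt : z ∈ ball z₀ r := by
    rcases (mem_closedBall.1 hz).lt_or_eq with h | h
    · exact h
    · exfalso
      have h1 : ‖z - z₀‖ = r := by rw [← dist_eq_norm]; exact h
      have h2 : u z t ≤ M := hM t ⟨ht'.1, ht.2⟩ z (subset_closure (hball hz))
      have h3 : Real.log (r ^ 2) ≤ Real.log (r ^ 2 + η ^ 2) :=
        Real.log_le_log (by positivity) (by nlinarith)
      rw [Real.log_pow] at h3
      have h4 : Real.log r ≤ 0 := Real.log_nonpos hr.le hr1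
      have h5 : c * Real.log r ≤ a / 2 * Real.log (r ^ 2 + η ^ 2) := by
        calc c * Real.log r ≤ a * Real.log r := mul_le_mul_of_nonpos_right hac h4
          _ = a / 2 * (((2 : ℕ) : ℝ) * Real.log r) := by push_cast; ring
          _ ≤ a / 2 * Real.log (r ^ 2 + η ^ 2) := mul_le_mul_of_nonneg_left h3 (by positivity)
      simp only [hV] at hpos
      rw [h1] at hpos
      have h6 : 0 ≤ A * (t - t₀) := mul_nonneg hA0.le (by linarith)
      linarith
  have hzΩ : z ∈ Ω := hball hz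
  -- time derivative
  have hud := time_hasDerivAt hΩ hS ht' hzΩ
  have hVd : HasDerivAt (fun s => V (z, s))
      (-n * Real.log (‖z - z₀‖ ^ 2 + η ^ 2) + A) t := by
    have h1 : HasDerivAt (fun s : ℝ => (c - 2 * n * (s - t₀)) / 2 *
        Real.log (‖z - z₀‖ ^ 2 + η ^ 2))
        ((-(2 * n)) / 2 * Real.log (‖z - z₀‖ ^ 2 + η ^ 2)) t := by
      have h2 : HasDerivAt (fun s : ℝ => (c - 2 * n * (s - t₀)) / 2) (-(2 * n) / 2) t := by
        have := ((((hasDerivAt_id t).sub_const t₀).const_mul (2 * (n : ℝ))).const_sub c).div_const 2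
        simpa using this
      exact h2.mul_const _
    have h2 : HasDerivAt (fun s : ℝ => A * (s - t₀) + K + η) A t := by
      have := ((((hasDerivAt_id t).sub_const t₀).const_mul A).add_const K).add_const η
      simpa using this
    refine (h1.add h2).congr_deriv ?_
    ring
  have hdiff := deriv_nonneg_of_left_max htne (hud.sub hVd) (fun s hs => by
    have := hmax (show (z, s) ∈ _ from ⟨hz, hs.1, hs.2.trans ht.2⟩)
    exact this)
  -- space derivatives
  have hspace : ∀ k, D2 (fun w => u w t) z (vk k) (vk k) ≤ a / (‖z - z₀‖ ^ 2 + η ^ 2) := by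
    intro k
    obtain ⟨p, hp, hq⟩ := line_data (slice_contDiffAt hΩ hS ht' hzΩ) (vk k)
    obtain ⟨p', q', hp', hq', hle⟩ := barrier_line (z - z₀) (vk k) (norm_vk k) a η
      (A * (t - t₀) + K + η) hapos.le hη
    have hsub := second_deriv_nonpos (h := fun s : ℝ => u (z + s • vk k) t -
      (a / 2 * Real.log (‖z - z₀ + s • vk k‖ ^ 2 + η ^ 2) + (A * (t - t₀) + K + η)))
      (p := fun s => p s - p' s) (q := D2 (fun w => u w t) z (vk k) (vk k) - q') ?_ ?_ ?_
    · linarith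
    · have hc' : ContinuousAt (fun s : ℝ => z + s • (vk k : Cn n)) 0 := by fun_prop
      have h3 := hc'.eventually (p := fun w => w ∈ ball z₀ r) (by
        simp only [zero_smul, add_zero]
        exact isOpen_ball.mem_nhds hzlt)
      have h4 : ∀ᶠ s in 𝓝 (0 : ℝ), u (z + s • vk k) t - V (z + s • vk k, t) ≤ u z t - V (z, t) := by
        filter_upwards [h3] with s hs
        exact hmax (show (z + s • vk k, t) ∈ _ from ⟨ball_subset_closedBall hs, ht⟩)
      have h5 : ∀ s : ℝ, V (z + s • vk k, t) =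
          a / 2 * Real.log (‖z - z₀ + s • vk k‖ ^ 2 + η ^ 2) + (A * (t - t₀) + K + η) := by
        intro s
        simp only [hV]
        rw [show z + s • (vk k : Cn n) - z₀ = z - z₀ + s • vk k by abel]
      have h6 : V (z, t) = a / 2 * Real.log (‖z - z₀ + (0 : ℝ) • (vk k : Cn n)‖ ^ 2 + η ^ 2) +
          (A * (t - t₀) + K + η) := by
        have := h5 0
        rw [zero_smul, add_zero] at this
        simpa using this
      simp_rw [h5] at h4
      rw [h6] at h4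
      filter_upwards [h4] with s hs
      simpa using hs
    · filter_upwards [hp] with s hs
      exact hs.sub (hp' s)
    · exact hq.sub hq'
  have hρ : 0 < ‖z - z₀‖ ^ 2 + η ^ 2 := by positivity
  set ρ := ‖z - z₀‖ ^ 2 + η ^ 2 with hρdef
  obtain ⟨htr, hlog⟩ := log_det_le hn _ (hS.strict t ht' z hzΩ)
  have htrle : (cHess (fun w => u w t) z).trace.re / n ≤ a / 2 / ρ := by
    rw [trace_cHess, div_le_iff₀ hn0]
    have h1 : ∑ k, D2 (fun w => u w t) z (vk k) (vk k) ≤ ∑ _k : Fin n ⊕ Fin n, a / ρ :=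
      Finset.sum_le_sum fun k _ => hspace k
    rw [Finset.sum_const, Finset.card_univ, Fintype.card_sum, Fintype.card_fin, nsmul_eq_mul] at h1
    push_cast at h1
    calc 1 / 4 * ∑ k, D2 (fun w => u w t) z (vk k) (vk k) ≤ 1 / 4 * ((n + n) * (a / ρ)) := by
          gcongr
      _ = a / 2 / ρ * n := by ring
  have hlog2 : Real.log ((cHess (fun w => u w t) z).trace.re / n) ≤
      Real.log (c / 2) - Real.log ρ := by
    calc Real.log ((cHess (fun w => u w t) z).trace.re / n) ≤ Real.log (a / 2 / ρ) :=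
          Real.log_le_log (by positivity) htrle
      _ = Real.log (a / 2) - Real.log ρ := Real.log_div (by positivity) hρ.ne'
      _ ≤ Real.log (c / 2) - Real.log ρ := by
          gcongr
  have hfin : Real.log ((cHess (fun w => u w t) z).det.re) ≤
      n * |Real.log (c / 2)| - n * Real.log ρ := by
    calc Real.log ((cHess (fun w => u w t) z).det.re)
        ≤ n * Real.log ((cHess (fun w => u w t) z).trace.re / n) := hlog
      _ ≤ n * (Real.log (c / 2) - Real.log ρ) := by gcongr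
      _ ≤ n * (|Real.log (c / 2)| - Real.log ρ) := by
          gcongr
          exact le_abs_self _
      _ = _ := by ring
  linarith

end Pool.Agent.NH66.MAFlow
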