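import Pool.Agent.NH66.MAFlow.Flow

/-!
# Hartogs' lemma for the solution near the initial time
-/

open Set Filter Topology MeasureTheory Metric
open scoped ComplexOrder

noncomputable section

namespace Pool.Agent.NH66.MAFlow

variable {n : ℕ} {Ω : Set (Cn n)} {T : ℝ} {u₀ : Cn n → EReal} {φ u : Cn n → ℝ → ℝ}

/-- scaling constant -/
def cs (n : ℕ) (s : ℝ) : ℝ := |(s ^ Module.finrank ℝ (Cn n))⁻¹|

theorem cs_pos {s : ℝ} (hs : 0 < s) : 0 < cs n s := by
  unfold cs
  positivity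

theorem integral_affine (F : Cn n → ℝ) (z : Cn n) (s : ℝ) :
    ∫ y, F (z + s • y) = cs n s * ∫ w, F w := by
  have h1 := Measure.integral_comp_smul (volume : Measure (Cn n)) (fun x => F (z + x)) s
  rw [h1, integral_add_left_eq_self]
  rfl

/-- shifted kernel -/
def Xk (s : ℝ) (ζ w : Cn n) : ℝ := chi (s⁻¹ • (w - ζ))

theorem Xk_nonneg (s : ℝ) (ζ w : Cn n) : 0 ≤ Xk s ζ w := chi_nonneg _

theorem Xk_cont (s : ℝ) (ζ : Cn n) : Continuous (Xk s ζ) := chi_cont.comp (by fun_prop)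

theorem Xk_zero {s : ℝ} (hs : 0 < s) {ζ w : Cn n} (h : s < ‖w - ζ‖) : Xk s ζ w = 0 := by
  apply chi_zero
  rw [norm_smul, norm_inv, Real.norm_of_nonneg hs.le, inv_mul_eq_div, lt_div_iff₀ hs]
  simpa using h

theorem Xk_tsupport {s : ℝ} (hs : 0 < s) (ζ : Cn n) : tsupport (Xk s ζ) ⊆ closedBall ζ s := by
  refine closure_minimal ?_ isClosed_closedBall
  intro w hw
  by_contra h
  rw [mem_closedBall, not_le, dist_eq_norm] at h
  exact hw (Xk_zero hs h)

theorem Xk_compact {s : ℝ} (hs : 0 < s) (ζ : Cn n) : HasCompactSupport (Xk s ζ) :=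
  (isCompact_closedBall ζ s).of_isClosed_subset (isClosed_tsupport _) (Xk_tsupport hs ζ)

theorem Xk_integral {s : ℝ} (hs : 0 < s) (ζ : Cn n) : ∫ w, Xk s ζ w = kap n / cs n s := by
  have h1 := integral_affine (Xk s ζ) ζ s
  have h2 : (fun y : Cn n => Xk s ζ (ζ + s • y)) = chi := by
    funext y
    simp only [Xk]
    rw [add_sub_cancel_left, smul_smul, inv_mul_cancel₀ hs.ne', one_smul]
  rw [h2] at h1
  rw [eq_div_iff (cs_pos hs).ne', mul_comm, ← h1]
  rfl

theorem Xk_integrable {s : ℝ} (hs : 0 < s) (ζ : Cn n) : Integrable (Xk s ζ) :=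
  (Xk_cont s ζ).integrable_of_hasCompactSupport (Xk_compact hs ζ)

/-- the weighted function -/
theorem H_props (hn : 1 ≤ n) (hΩ : IsOpen Ω) (hS : IsSolution Ω T u₀ φ u) {t M s : ℝ}
    (ht : t ∈ Ioo 0 T) (hs : 0 < s) {ζ : Cn n} (hball : closedBall ζ (2 * s) ⊆ Ω) :
    Continuous (fun w => (M - u w t) * Xk s ζ w) ∧
    Integrable (fun w => (M - u w t) * Xk s ζ w) ∧
    ∫ w, (M - u w t) * Xk s ζ w ≤ (M - u ζ t) * (kap n / cs n s) := by
  have hcont : Continuous (fun w => (M - u w t) * Xk s ζ w) := by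
    refine continuous_of_tsupport fun w hw => ?_
    have h1 : w ∈ closedBall ζ s := Xk_tsupport hs ζ (tsupport_mul_subset_right hw)
    have h2 : w ∈ Ω := hball (closedBall_subset_closedBall (by linarith) h1)
    have h3 : ContinuousAt (fun w => u w t) w := (slice_contDiffAt hΩ hS ht h2).continuousAt
    exact (continuousAt_const.sub h3).mul (Xk_cont s ζ).continuousAt
  have hint : Integrable (fun w => (M - u w t) * Xk s ζ w) :=
    hcont.integrable_of_hasCompactSupport (Xk_compact hs ζ).mul_left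
  refine ⟨hcont, hint, ?_⟩
  have hsub := submean (fun w => u w t) ζ s (2 * s) hs.le (by linarith)
    (fun w hw => (slice_contDiffAt hΩ hS ht (hball (ball_subset_closedBall hw))).contDiffWithinAt)
    (fun w hw => (laplacian_pos hn hS ht
      (hball (closedBall_subset_closedBall (by linarith) hw))).le)
  have e1 : ∀ y : Cn n, Xk s ζ (ζ + s • y) = chi y := by
    intro y
    simp only [Xk]
    rw [add_sub_cancel_left, smul_smul, inv_mul_cancel₀ hs.ne', one_smul]
  have e2 := integral_affine (fun w => (M - u w t) * Xk s ζ w) ζ s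
  simp only [e1] at e2
  -- integrability of the pulled back function
  have hint2 : Integrable (fun y : Cn n => (M - u (ζ + s • y) t) * chi y) := by
    have h1 : Continuous (fun y : Cn n => (M - u (ζ + s • y) t) * chi y) := by
      have := hcont.comp (show Continuous fun y : Cn n => ζ + s • y by fun_prop)
      simpa only [Function.comp_def, e1] using this
    exact h1.integrable_of_hasCompactSupport chi_compact.mul_left
  have e3 : ∫ y : Cn n, (M - u (ζ + s • y) t) * chi y =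
      M * kap n - ∫ y : Cn n, u (ζ + s • y) t * chi y := by
    have h2 : Integrable (fun y : Cn n => M * chi y) := chi_integrable.const_mul M
    have h3 : Integrable (fun y : Cn n => u (ζ + s • y) t * chi y) := by
      have := h2.sub hint2
      refine this.congr (Eventually.of_forall fun y => ?_)
      simp only [Pi.sub_apply]
      ring
    rw [show (fun y : Cn n => (M - u (ζ + s • y) t) * chi y) =
      fun y => M * chi y - u (ζ + s • y) t * chi y by funext y; ring]
    rw [integral_sub h2 h3, integral_const_mul]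
    rfl
  have hcs := cs_pos (n := n) hs
  have e4 : ∫ w, (M - u w t) * Xk s ζ w =
      (M * kap n - ∫ y : Cn n, u (ζ + s • y) t * chi y) / cs n s := by
    rw [eq_div_iff hcs.ne', mul_comm, ← e2, e3]
  rw [e4, ← mul_div_assoc]
  refine div_le_div_of_nonneg_right ?_ hcs.le
  linarith

/-- **Hartogs' lemma**: for small times the solution lies below the initial barrier. -/
theorem hartogs (hn : 1 ≤ n) (hΩ : IsOpen Ω) (hS : IsSolution Ω T u₀ φ u) {z₀ : Cn n}
    {r c K M η T₁ : ℝ} (hball : closedBall z₀ r ⊆ Ω) (hr : 0 < r) (hc : 0 < c)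
    (hη : 0 < η) (hT₁ : 0 < T₁) (hT : T₁ < T)
    (hM : ∀ t ∈ Ioc (0 : ℝ) T₁, ∀ z ∈ closure Ω, u z t ≤ M) (hK : M ≤ c * Real.log r + K)
    (hK0 : 0 ≤ K)
    (hu₀ : ∀ z ∈ closedBall z₀ r, z ≠ z₀ → u₀ z ≤ ((c * Real.log ‖z - z₀‖ : ℝ) : EReal)) :
    ∃ t₀ ∈ Ioo 0 (min η T₁), ∀ z ∈ closedBall z₀ r,
      u z t₀ ≤ c / 2 * Real.log (‖z - z₀‖ ^ 2 + η ^ 2) + K + η := by
  by_contra hcon
  push Not at hcon
  set g : Cn n → ℝ := fun z => c / 2 * Real.log (‖z - z₀‖ ^ 2 + η ^ 2) + K + η with hg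
  have hgc : Continuous g := by
    have : Continuous fun z : Cn n => Real.log (‖z - z₀‖ ^ 2 + η ^ 2) := by
      refine Continuous.log (by fun_prop) fun p => ?_
      positivity
    fun_prop
  set m := min η T₁ with hm
  have hmpos : 0 < m := lt_min hη hT₁
  have htk : ∀ k : ℕ, m / (k + 2) ∈ Ioo 0 m := by
    intro k
    have : (0 : ℝ) ≤ k := k.cast_nonneg
    refine ⟨by positivity, ?_⟩
    rw [div_lt_iff₀ (by positivity)]
    nlinarith
  choose z hzm hzlt using fun k : ℕ => hcon (m / (k + 2)) (htk k)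
  obtain ⟨z₁, hz₁, ψ, hψ, hlim⟩ := (isCompact_closedBall z₀ r).tendsto_subseq hzm
  -- the times
  have htlim : Tendsto (fun k : ℕ => m / ((k : ℝ) + 2)) atTop (𝓝[>] 0) := by
    refine tendsto_nhdsWithin_iff.2 ⟨?_, Eventually.of_forall fun k => (htk k).1⟩
    have h1 : Tendsto (fun k : ℕ => (k : ℝ) + 2) atTop atTop :=
      tendsto_atTop_add_const_right _ _ tendsto_natCast_atTop_atTop
    exact h1.const_div_atTop m
  have hψlim := hψ.tendsto_atTop
  set τ' : ℕ → ℝ := fun k => m / ((ψ k : ℝ) + 2) with hτ'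
  have hτlim : Tendsto τ' atTop (𝓝[>] 0) := htlim.comp hψlim
  set ζ' : ℕ → Cn n := fun k => z (ψ k) with hζ'
  have hζlim : Tendsto ζ' atTop (𝓝 z₁) := hlim
  have hτmem : ∀ k, τ' k ∈ Ioc 0 T₁ := fun k =>
    ⟨(htk (ψ k)).1, ((htk (ψ k)).2.le.trans (min_le_right _ _))⟩
  have hτmem2 : ∀ k, τ' k ∈ Ioo 0 T := fun k => ⟨(hτmem k).1, (hτmem k).2.trans_lt hT⟩
  have hgt : ∀ k, g (ζ' k) < u (ζ' k) (τ' k) := fun k => hzlt (ψ k)
  have hζmem : ∀ k, ζ' k ∈ closedBall z₀ r := fun k => hzm (ψ k)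
  have hle : ∀ k, u (ζ' k) (τ' k) ≤ M := fun k =>
    hM _ (hτmem k) _ (subset_closure (hball (hζmem k)))
  have hglim : Tendsto (fun k => g (ζ' k)) atTop (𝓝 (g z₁)) := (hgc.tendsto z₁).comp hζlim
  have hMg : g z₁ ≤ M := le_of_tendsto hglim (Eventually.of_forall fun k =>
    ((hgt k).le.trans (hle k)))
  set d := ‖z₁ - z₀‖ with hd
  have hdr : d ≤ r := by rw [hd, ← dist_eq_norm]; exact hz₁
  rcases hdr.lt_or_eq with hdr | hdr
  swap
  · -- on the sphere
    have h1 : Real.log (r ^ 2) ≤ Real.log (r ^ 2 + η ^ 2) :=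
      Real.log_le_log (by positivity) (by nlinarith)
    rw [Real.log_pow] at h1
    have h2 : g z₁ = c / 2 * Real.log (r ^ 2 + η ^ 2) + K + η := by
      simp only [hg]
      rw [← hd, hdr]
    have h3 : c * Real.log r ≤ c / 2 * Real.log (r ^ 2 + η ^ 2) := by
      calc c * Real.log r = c / 2 * (((2 : ℕ) : ℝ) * Real.log r) := by push_cast; ring
        _ ≤ _ := mul_le_mul_of_nonneg_left h1 (by positivity)
    linarith
  -- interior point
  have hd0 : 0 ≤ d := norm_nonneg _
  have hsq : d < Real.sqrt (d ^ 2 + η ^ 2) := by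
    apply Real.lt_sqrt_of_sq_lt
    nlinarith
  obtain ⟨s, hs, hs1, hs2⟩ : ∃ s : ℝ, 0 < s ∧ d + 4 * s ≤ r ∧
      d + 2 * s ≤ Real.sqrt (d ^ 2 + η ^ 2) := by
    refine ⟨min ((r - d) / 4) ((Real.sqrt (d ^ 2 + η ^ 2) - d) / 2),
      lt_min (by linarith) (by linarith), ?_, ?_⟩
    · have := min_le_left ((r - d) / 4) ((Real.sqrt (d ^ 2 + η ^ 2) - d) / 2)
      linarith
    · have := min_le_right ((r - d) / 4) ((Real.sqrt (d ^ 2 + η ^ 2) - d) / 2)
      linarith
  obtain ⟨N, hN⟩ : ∃ N, ∀ k ≥ N, dist (ζ' k) z₁ < s :=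
    (Metric.tendsto_atTop.1 hζlim) s hs
  set ζ : ℕ → Cn n := fun k => ζ' (k + N) with hζ
  set τ : ℕ → ℝ := fun k => τ' (k + N) with hτ
  have hζl : Tendsto ζ atTop (𝓝 z₁) := hζlim.comp (tendsto_add_atTop_nat N)
  have hτl : Tendsto τ atTop (𝓝[>] 0) := hτlim.comp (tendsto_add_atTop_nat N)
  have hclose : ∀ k, ‖ζ k - z₁‖ < s := fun k => by
    rw [← dist_eq_norm]
    exact hN _ (Nat.le_add_left _ _)
  have hballk : ∀ k, closedBall (ζ k) (2 * s) ⊆ Ω := by
    intro k w hw
    apply hball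
    rw [mem_closedBall, dist_eq_norm] at hw ⊢
    calc ‖w - z₀‖ = ‖(w - ζ k) + (ζ k - z₁) + (z₁ - z₀)‖ := by congr 1; abel
      _ ≤ ‖(w - ζ k) + (ζ k - z₁)‖ + ‖z₁ - z₀‖ := norm_add_le _ _
      _ ≤ ‖w - ζ k‖ + ‖ζ k - z₁‖ + ‖z₁ - z₀‖ := by gcongr; exact norm_add_le _ _
      _ ≤ 2 * s + s + d := by gcongr; exact (hclose k).le
      _ ≤ r := by linarith
  have hprops := fun k => H_props (M := M) hn hΩ hS (hτmem2 (k + N)) hs (hballk k)
  set κ' := kap n / cs n s with hκ'
  have hκpos : 0 < κ' := div_pos (kap_pos hn) (cs_pos hs)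
  -- the functions for Fatou's lemma
  set F : ℕ → Cn n → ENNReal := fun k w => ENNReal.ofReal ((M - u w (τ k)) * Xk s (ζ k) w) with hF
  have hFmeas : ∀ k, Measurable (F k) := fun k => (hprops k).1.measurable.ennreal_ofReal
  have hnonneg : ∀ k w, 0 ≤ (M - u w (τ k)) * Xk s (ζ k) w := by
    intro k w
    by_cases hw : s < ‖w - ζ k‖
    · rw [Xk_zero hs hw, mul_zero]
    · refine mul_nonneg ?_ (Xk_nonneg _ _ _)
      have h1 : w ∈ Ω := hballk k (by
        rw [mem_closedBall, dist_eq_norm]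
        linarith [not_lt.1 hw])
      have := hM (τ k) (hτmem (k + N)) w (subset_closure h1)
      linarith
  have hFint : ∀ k, ∫⁻ w, F k w ≤ ENNReal.ofReal ((M - g (ζ k)) * κ') := by
    intro k
    rw [← ofReal_integral_eq_lintegral_ofReal (hprops k).2.1
      (Eventually.of_forall fun w => hnonneg k w)]
    refine ENNReal.ofReal_le_ofReal ((hprops k).2.2.trans ?_)
    refine mul_le_mul_of_nonneg_right ?_ hκpos.le
    have := hgt (k + N)
    show M - u (ζ' (k + N)) (τ' (k + N)) ≤ M - g (ζ' (k + N))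
    linarith
  have hlimR : Tendsto (fun k => ENNReal.ofReal ((M - g (ζ k)) * κ')) atTop
      (𝓝 (ENNReal.ofReal ((M - g z₁) * κ'))) := by
    refine ENNReal.tendsto_ofReal ?_
    exact ((hglim.comp (tendsto_add_atTop_nat N)).const_sub M).mul_const κ'
  have hupper : liminf (fun k => ∫⁻ w, F k w) atTop ≤ ENNReal.ofReal ((M - g z₁) * κ') := by
    rw [← hlimR.liminf_eq]
    exact liminf_le_liminf (Eventually.of_forall hFint)
  have hlower : ∀ w, w ≠ z₀ → ENNReal.ofReal ((M - g z₁ + η / 2) * Xk s z₁ w) ≤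
      liminf (fun k => F k w) atTop := by
    intro w hw
    by_cases hws : s < ‖w - z₁‖
    · rw [Xk_zero hs hws]
      simp
    rw [not_lt] at hws
    have hwr : ‖w - z₀‖ ≤ d + s := by
      calc ‖w - z₀‖ = ‖(w - z₁) + (z₁ - z₀)‖ := by congr 1; abel
        _ ≤ ‖w - z₁‖ + ‖z₁ - z₀‖ := norm_add_le _ _
        _ ≤ s + d := by gcongr
        _ = d + s := add_comm _ _
    have hwball : w ∈ closedBall z₀ r := by
      rw [mem_closedBall, dist_eq_norm]
      linarith
    have hwpos : 0 < ‖w - z₀‖ := norm_pos_iff.2 (sub_ne_zero.2 hw)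
    -- limit of `u w`
    have h1 : u₀ w < ((g z₁ - η / 2 : ℝ) : EReal) := by
      refine (hu₀ w hwball hw).trans_lt ?_
      rw [EReal.coe_lt_coe_iff]
      have h2 : Real.log ‖w - z₀‖ ≤ Real.log (d ^ 2 + η ^ 2) / 2 := by
        rw [← Real.log_sqrt (by positivity)]
        refine Real.log_le_log hwpos ?_
        linarith
      have h3 : c * Real.log ‖w - z₀‖ ≤ c / 2 * Real.log (d ^ 2 + η ^ 2) := by
        calc c * Real.log ‖w - z₀‖ ≤ c * (Real.log (d ^ 2 + η ^ 2) / 2) :=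
              mul_le_mul_of_nonneg_left h2 hc.le
          _ = _ := by ring
      have h4 : g z₁ = c / 2 * Real.log (d ^ 2 + η ^ 2) + K + η := rfl
      linarith
    have h5 : ∀ᶠ k in atTop, ((u w (τ k) : ℝ) : EReal) < ((g z₁ - η / 2 : ℝ) : EReal) :=
      ((hS.initial w (subset_closure (hball hwball))).comp hτl).eventually_lt_const h1
    have h6 : ∀ᶠ k in atTop, ENNReal.ofReal ((M - g z₁ + η / 2) * Xk s (ζ k) w) ≤ F k w := by
      filter_upwards [h5] with k hk
      rw [EReal.coe_lt_coe_iff] at hk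
      refine ENNReal.ofReal_le_ofReal (mul_le_mul_of_nonneg_right ?_ (Xk_nonneg _ _ _))
      linarith
    have h7 : Tendsto (fun k => ENNReal.ofReal ((M - g z₁ + η / 2) * Xk s (ζ k) w)) atTop
        (𝓝 (ENNReal.ofReal ((M - g z₁ + η / 2) * Xk s z₁ w))) := by
      refine ENNReal.tendsto_ofReal (Tendsto.const_mul _ ?_)
      have h8 : Continuous fun ζ : Cn n => Xk s ζ w := by
        unfold Xk
        exact chi_cont.comp (by fun_prop)
      exact (h8.tendsto z₁).comp hζl
    rw [← h7.liminf_eq]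
    exact liminf_le_liminf h6
  have hfatou := lintegral_liminf_le (μ := (volume : Measure (Cn n))) (u := atTop) hFmeas
  have hnea : ∀ᵐ w : Cn n, w ≠ z₀ := by
    have : Nontrivial (Cn n) := by
      have : Nonempty (Fin n) := ⟨⟨0, hn⟩⟩
      infer_instance
    exact Measure.ae_ne volume z₀
  have hlow2 : ENNReal.ofReal ((M - g z₁ + η / 2) * κ') ≤ ∫⁻ w, liminf (fun k => F k w) atTop := by
    have h1 : ∫ w, (M - g z₁ + η / 2) * Xk s z₁ w = (M - g z₁ + η / 2) * κ' := by
      rw [integral_const_mul, Xk_integral hs]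
    rw [← h1, ofReal_integral_eq_lintegral_ofReal ((Xk_integrable hs z₁).const_mul _)
      (Eventually.of_forall fun w => mul_nonneg (by linarith) (Xk_nonneg _ _ _))]
    exact lintegral_mono_ae (hnea.mono fun w hw => hlower w hw)
  have hfin := hlow2.trans (hfatou.trans hupper)
  rw [ENNReal.ofReal_le_ofReal_iff (mul_nonneg (by linarith) hκpos.le)] at hfin
  have : (M - g z₁ + η / 2) ≤ (M - g z₁) := le_of_mul_le_mul_right hfin hκpos
  linarith

end Pool.Agent.NH66.MAFlow
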