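import Pool.Agent.NH66.MAFlow.Defs

/-!
# A sub-mean value inequality with a smooth radial kernel
-/

open Set Filter Topology MeasureTheory Metric
open scoped ComplexOrder

noncomputable section

namespace Pool.Agent.NH66.MAFlow

variable {n : ℕ}

/-- the real basis vectors -/
def vk : Fin n ⊕ Fin n → Cn n
  | Sum.inl i => ex i
  | Sum.inr i => ey i

/-- the real coordinates -/
def ck (y : Cn n) : Fin n ⊕ Fin n → ℝ
  | Sum.inl i => (y i).re
  | Sum.inr i => (y i).im

theorem sum_ck (y : Cn n) : y = ∑ k, ck y k • vk k := by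
  rw [Fintype.sum_sum_type, ← Finset.sum_add_distrib]
  ext j
  simp only [ck, vk, ex, ey]
  rw [WithLp.ofLp_sum, Finset.sum_apply]
  simp only [PiLp.add_apply, PiLp.smul_apply, PiLp.single_apply]
  rw [Finset.sum_eq_single j]
  · apply Complex.ext <;> simp
  · intro b _ hb
    simp [Ne.symm hb]
  · simp

theorem inner_vk (y : Cn n) (k : Fin n ⊕ Fin n) : inner ℝ y (vk k) = ck y k := by
  cases k with
  | inl i =>
    simp only [vk, ck, ex]
    rw [PiLp.inner_apply, Finset.sum_eq_single i] <;>
      simp +contextual [real_inner_eq_re_inner ℂ]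
  | inr i =>
    simp only [vk, ck, ey]
    rw [PiLp.inner_apply, Finset.sum_eq_single i] <;> simp +contextual [Complex.inner]

theorem norm_vk (k : Fin n ⊕ Fin n) : ‖(vk k : Cn n)‖ = 1 := by
  cases k with
  | inl i => simp [vk, ex]
  | inr i => simp [vk, ey]

/-- the cut-off profile -/
def gf (s : ℝ) : ℝ := expNegInvGlue (1 - s)

theorem gf_smooth : ContDiff ℝ (⊤ : ℕ∞) gf :=
  expNegInvGlue.contDiff.comp (contDiff_const.sub contDiff_id)

theorem gf_nonneg (s : ℝ) : 0 ≤ gf s := expNegInvGlue.nonneg _

theorem gf_anti : Antitone gf := fun a b h => expNegInvGlue.monotone (by linarith)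

theorem gf_zero {s : ℝ} (h : 1 ≤ s) : gf s = 0 := expNegInvGlue.zero_of_nonpos (by linarith)

/-- the bump function -/
def Psi (y : Cn n) : ℝ := gf (‖y‖ ^ 2)

/-- the kernel -/
def chi (y : Cn n) : ℝ := -2 * deriv gf (‖y‖ ^ 2)

theorem Psi_smooth : ContDiff ℝ (⊤ : ℕ∞) (Psi : Cn n → ℝ) :=
  gf_smooth.comp (contDiff_norm_sq ℝ)

theorem Psi_nonneg (y : Cn n) : 0 ≤ Psi y := gf_nonneg _

theorem chi_nonneg (y : Cn n) : 0 ≤ chi y := by
  unfold chi
  have := gf_anti.deriv_nonpos (x := ‖y‖ ^ 2)
  linarith

theorem chi_cont : Continuous (chi : Cn n → ℝ) := by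
  unfold chi
  have h : Continuous (deriv gf) := gf_smooth.continuous_deriv (by exact_mod_cast le_top)
  exact continuous_const.mul (h.comp (continuous_norm.pow 2))

theorem chi_zero {y : Cn n} (h : 1 < ‖y‖) : chi y = 0 := by
  have h1 : (1 : ℝ) < ‖y‖ ^ 2 := by nlinarith
  have : deriv gf (‖y‖ ^ 2) = 0 := by
    have h2 : gf =ᶠ[𝓝 (‖y‖ ^ 2)] fun _ => 0 := by
      filter_upwards [lt_mem_nhds h1] with s hs using gf_zero hs.le
    rw [h2.deriv_eq]
    simp
  simp [chi, this]

theorem Psi_tsupport : tsupport (Psi : Cn n → ℝ) ⊆ closedBall 0 1 := by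
  refine closure_minimal ?_ isClosed_closedBall
  intro y hy
  by_contra h
  rw [mem_closedBall_zero_iff, not_le] at h
  exact hy (gf_zero (by nlinarith))

theorem chi_tsupport : tsupport (chi : Cn n → ℝ) ⊆ closedBall 0 1 := by
  refine closure_minimal ?_ isClosed_closedBall
  intro y hy
  by_contra h
  rw [mem_closedBall_zero_iff, not_le] at h
  exact hy (chi_zero h)

theorem Psi_compact : HasCompactSupport (Psi : Cn n → ℝ) :=
  (isCompact_closedBall (0 : Cn n) 1).of_isClosed_subset (isClosed_tsupport _) Psi_tsupport

theorem chi_compact : HasCompactSupport (chi : Cn n → ℝ) :=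
  (isCompact_closedBall (0 : Cn n) 1).of_isClosed_subset (isClosed_tsupport _) chi_tsupport

theorem fderiv_Psi (y : Cn n) (k : Fin n ⊕ Fin n) :
    fderiv ℝ Psi y (vk k) = - (chi y * ck y k) := by
  have h1 : HasFDerivAt (fun y : Cn n => ‖y‖ ^ 2) (2 • (innerSL ℝ y)) y :=
    (hasStrictFDerivAt_norm_sq y).hasFDerivAt
  have h2 : HasDerivAt gf (deriv gf (‖y‖ ^ 2)) (‖y‖ ^ 2) :=
    ((gf_smooth.differentiable (by simp)) _).hasDerivAt
  have h3 : HasFDerivAt Psi (deriv gf (‖y‖ ^ 2) • (2 • (innerSL ℝ y))) y :=
    h2.comp_hasFDerivAt y h1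
  rw [h3.fderiv]
  simp only [smul_apply, innerSL_apply_apply, inner_vk, chi]
  simp only [smul_eq_mul, nsmul_eq_mul]
  push_cast
  ring

/-- mass of the kernel -/
def kap (n : ℕ) : ℝ := ∫ y : Cn n, chi y

theorem chi_integrable : Integrable (chi : Cn n → ℝ) :=
  chi_cont.integrable_of_hasCompactSupport chi_compact

theorem kap_pos (hn : 1 ≤ n) : 0 < kap n := by
  -- a point where `chi` is positive
  obtain ⟨s, hs, hsd⟩ : ∃ s ∈ Ioo (0 : ℝ) 1, deriv gf s = (gf 1 - gf 0) / (1 - 0) :=
    exists_deriv_eq_slope gf zero_lt_one gf_smooth.continuous.continuousOn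
      ((gf_smooth.differentiable (by simp)).differentiableOn)
  have h0 : 0 < gf 0 := expNegInvGlue.pos_of_pos (by norm_num)
  rw [gf_zero le_rfl] at hsd
  have hneg : deriv gf s < 0 := by rw [hsd]; linarith
  let y : Cn n := (Real.sqrt s) • ex ⟨0, hn⟩
  have hy : ‖y‖ ^ 2 = s := by
    have : ‖(ex ⟨0, hn⟩ : Cn n)‖ = 1 := by simp [ex]
    simp only [y]
    rw [norm_smul, this, mul_one, Real.norm_of_nonneg (Real.sqrt_nonneg _), Real.sq_sqrt hs.1.le]
  have hchi : chi y ≠ 0 := by
    unfold chi
    rw [hy]
    intro h
    linarith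
  exact chi_cont.integral_pos_of_hasCompactSupport_nonneg_nonzero chi_compact chi_nonneg hchi

/-- **Sub-mean value inequality** for a globally defined `C²` function. -/
theorem submean_global (f : Cn n → ℝ) (hf : ContDiff ℝ 2 f) (z : Cn n) (r : ℝ) (hr : 0 ≤ r)
    (hL : ∀ w ∈ closedBall z r, 0 ≤ ∑ k, D2 f w (vk k) (vk k)) :
    f z * kap n ≤ ∫ y, f (z + r • y) * chi y := by
  have hf1 : ContDiff ℝ 1 (fderiv ℝ f) := hf.fderiv_right (by norm_num)
  have hfd : Differentiable ℝ f := hf.differentiable (by norm_num)
  have hcd : Continuous (fderiv ℝ f) := hf1.continuous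
  set M : ℝ → ℝ := fun s => ∫ y, f (z + s • y) * chi y with hM
  set M' : ℝ → ℝ := fun s => ∫ y, fderiv ℝ f (z + s • y) y * chi y with hM'
  have hder : ∀ s, HasDerivAt M (M' s) s := by
    intro s₀
    -- a uniform bound
    obtain ⟨C, hC⟩ : ∃ C, ∀ w ∈ closedBall z (|s₀| + 1), ‖fderiv ℝ f w‖ ≤ C := by
      have := (isCompact_closedBall z (|s₀| + 1)).exists_bound_of_continuousOn
        (f := fderiv ℝ f) hcd.continuousOn
      exact this
    have hC0 : 0 ≤ C := (norm_nonneg _).trans (hC z (mem_closedBall_self (by positivity)))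
    refine (hasDerivAt_integral_of_dominated_loc_of_deriv_le (F := fun s y => f (z + s • y) * chi y)
      (F' := fun s y => fderiv ℝ f (z + s • y) y * chi y) (s := ball s₀ 1)
      (bound := fun y => C * chi y) (ball_mem_nhds s₀ one_pos) ?_ ?_ ?_ ?_ ?_ ?_).2
    · refine Eventually.of_forall fun s => ?_
      refine Continuous.aestronglyMeasurable ?_
      exact (hf.continuous.comp (by fun_prop)).mul chi_cont
    · refine Continuous.integrable_of_hasCompactSupport ?_ ?_
      · exact (hf.continuous.comp (by fun_prop)).mul chi_cont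
      · exact chi_compact.mul_left
    · refine Continuous.aestronglyMeasurable ?_
      refine Continuous.mul ?_ chi_cont
      exact (hcd.comp (by fun_prop)).clm_apply continuous_id
    · refine Eventually.of_forall fun y s hs => ?_
      rw [norm_mul, Real.norm_of_nonneg (chi_nonneg y)]
      by_cases hy : ‖y‖ ≤ 1
      · refine mul_le_mul_of_nonneg_right ?_ (chi_nonneg y)
        refine (ContinuousLinearMap.le_opNorm _ _).trans ?_
        have h1 : ‖fderiv ℝ f (z + s • y)‖ ≤ C := by
          apply hC
          rw [mem_closedBall, dist_eq_norm, add_sub_cancel_left, norm_smul, Real.norm_eq_abs]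
          have h2 : |s| ≤ |s₀| + 1 := by
            rw [mem_ball, Real.dist_eq] at hs
            have := abs_sub_abs_le_abs_sub s s₀
            linarith
          calc |s| * ‖y‖ ≤ (|s₀| + 1) * 1 := by gcongr
            _ = |s₀| + 1 := mul_one _
        calc ‖fderiv ℝ f (z + s • y)‖ * ‖y‖ ≤ C * 1 := by gcongr
          _ = C := mul_one C
      · rw [chi_zero (not_le.1 hy)]
        simp
    · exact chi_integrable.const_mul C
    · refine Eventually.of_forall fun y s _ => ?_
      have h1 : HasDerivAt (fun s : ℝ => z + s • y) y s := by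
        simpa using ((hasDerivAt_id s).smul_const y).const_add z
      have h2 : HasDerivAt (fun s : ℝ => f (z + s • y)) (fderiv ℝ f (z + s • y) y) s :=
        (hfd (z + s • y)).hasFDerivAt.comp_hasDerivAt s h1
      exact h2.mul_const _
  have hnonneg : ∀ s ∈ Icc 0 r, 0 ≤ M' s := by
    intro s hs
    have e1 : M' s = ∑ k, ∫ y, fderiv ℝ f (z + s • y) (vk k) * (ck y k * chi y) := by
      rw [← integral_finsetSum]
      · apply integral_congr_ae
        refine Eventually.of_forall fun y => ?_
        simp only
        conv_lhs => rw [show (fderiv ℝ f (z + s • y)) y =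
          (fderiv ℝ f (z + s • y)) (∑ k, ck y k • vk k) by rw [← sum_ck]]
        rw [map_sum, Finset.sum_mul]
        refine Finset.sum_congr rfl fun k _ => ?_
        rw [map_smul, smul_eq_mul]
        ring
      · intro k _
        refine Continuous.integrable_of_hasCompactSupport ?_ ?_
        · refine Continuous.mul ?_ (Continuous.mul ?_ chi_cont)
          · exact (hcd.comp (by fun_prop)).clm_apply continuous_const
          · simp_rw [← inner_vk]
            fun_prop
        · exact (chi_compact.mul_left).mul_left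
    rw [e1]
    have e2 : ∀ k : Fin n ⊕ Fin n, ∫ y, fderiv ℝ f (z + s • y) (vk k) * (ck y k * chi y) =
        ∫ y, (s * D2 f (z + s • y) (vk k) (vk k)) * Psi y := by
      intro k
      have hk1 : ∀ y : Cn n, HasFDerivAt (fun y : Cn n => fderiv ℝ f (z + s • y) (vk k))
          (s • ((fderiv ℝ (fderiv ℝ f) (z + s • y)).flip (vk k))) y := by
        intro y
        have h1 : HasFDerivAt (fun y : Cn n => z + s • y) (s • ContinuousLinearMap.id ℝ (Cn n)) y :=
          ((hasFDerivAt_id y).const_smul s).const_add z
        have h2 : HasFDerivAt (fderiv ℝ f) (fderiv ℝ (fderiv ℝ f) (z + s • y)) (z + s • y) :=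
          ((hf1.differentiable (by norm_num)) _).hasFDerivAt
        have h3 := (h2.comp y h1).clm_apply (hasFDerivAt_const (vk k) y)
        refine h3.congr_fderiv ?_
        ext v
        simp
      have h4 := integral_mul_fderiv_eq_neg_fderiv_mul_of_integrable (μ := (volume : Measure (Cn n)))
        (f := fun y : Cn n => fderiv ℝ f (z + s • y) (vk k)) (g := Psi) (v := vk k) ?_ ?_ ?_ ?_ ?_
      · have h5 : ∀ y : Cn n, fderiv ℝ f (z + s • y) (vk k) * (ck y k * chi y) =
            - (fderiv ℝ f (z + s • y) (vk k) * fderiv ℝ Psi y (vk k)) := by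
          intro y
          rw [fderiv_Psi]
          ring
        simp_rw [h5]
        rw [integral_neg, h4, neg_neg]
        apply integral_congr_ae
        refine Eventually.of_forall fun y => ?_
        simp only
        rw [(hk1 y).fderiv]
        simp [D2]
      · refine Continuous.integrable_of_hasCompactSupport ?_ (Psi_compact.mul_left)
        refine Continuous.mul ?_ Psi_smooth.continuous
        have : (fun y : Cn n => (fderiv ℝ (fun y : Cn n => fderiv ℝ f (z + s • y) (vk k)) y) (vk k)) =
            fun y => (s • ((fderiv ℝ (fderiv ℝ f) (z + s • y)).flip (vk k))) (vk k) := by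
          funext y
          rw [(hk1 y).fderiv]
        rw [this]
        have hc2 : Continuous (fderiv ℝ (fderiv ℝ f)) := hf1.continuous_fderiv (by norm_num)
        simp only [smul_apply, ContinuousLinearMap.flip_apply]
        exact ((((hc2.comp (by fun_prop : Continuous fun y : Cn n => z + s • y)).clm_apply
          continuous_const).clm_apply continuous_const).const_smul s)
      · refine Continuous.integrable_of_hasCompactSupport ?_ ?_
        · refine Continuous.mul ((hcd.comp (by fun_prop)).clm_apply continuous_const) ?_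
          exact (Psi_smooth.continuous_fderiv (by simp)).clm_apply continuous_const
        · exact (Psi_compact.fderiv_apply (𝕜 := ℝ) (vk k)).mul_left
      · refine Continuous.integrable_of_hasCompactSupport ?_ (Psi_compact.mul_left)
        exact ((hcd.comp (by fun_prop)).clm_apply continuous_const).mul Psi_smooth.continuous
      · intro y _
        exact (hk1 y).differentiableAt
      · intro y _
        exact (Psi_smooth.differentiable (by simp)) y
    simp_rw [e2]
    rw [← integral_finsetSum]
    · refine integral_nonneg fun y => ?_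
      simp only [Pi.zero_apply]
      rw [← Finset.sum_mul, ← Finset.mul_sum]
      by_cases hy : ‖y‖ ≤ 1
      · refine mul_nonneg (mul_nonneg hs.1 (hL _ ?_)) (Psi_nonneg y)
        rw [mem_closedBall, dist_eq_norm, add_sub_cancel_left, norm_smul,
          Real.norm_of_nonneg hs.1]
        calc s * ‖y‖ ≤ s * 1 := mul_le_mul_of_nonneg_left hy hs.1
          _ ≤ r := by linarith [hs.2]
      · have : Psi y = 0 := gf_zero (by nlinarith [not_le.1 hy])
        rw [this, mul_zero]
    · intro k _
      refine Continuous.integrable_of_hasCompactSupport ?_ (Psi_compact.mul_left)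
      refine Continuous.mul ?_ Psi_smooth.continuous
      have hc2 : Continuous (fderiv ℝ (fderiv ℝ f)) := hf1.continuous_fderiv (by norm_num)
      unfold D2
      exact ((((hc2.comp (by fun_prop : Continuous fun y : Cn n => z + s • y)).clm_apply
          continuous_const).clm_apply continuous_const).const_smul s)
  have hmono : M 0 ≤ M r := by
    have hcont : ContinuousOn M (Icc 0 r) := fun s _ => (hder s).continuousAt.continuousWithinAt
    have := monotoneOn_of_deriv_nonneg (convex_Icc 0 r) hcont
      (fun s _ => (hder s).differentiableAt.differentiableWithinAt)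
      (fun s hs => by
        rw [(hder s).deriv]
        exact hnonneg s (interior_subset hs))
    exact this (left_mem_Icc.2 hr) (right_mem_Icc.2 hr) hr
  have h0 : M 0 = f z * kap n := by
    simp only [hM, zero_smul, add_zero]
    rw [integral_const_mul]
    rfl
  rw [← h0]
  exact hmono

end Pool.Agent.NH66.MAFlow
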