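import Pool.Agent.NH66.MAFlow.Kernel

/-!
# Local form of the sub-mean value inequality, and second derivative tests
-/

open Set Filter Topology MeasureTheory Metric
open scoped ComplexOrder

noncomputable section

namespace Pool.Agent.NH66.MAFlow

variable {n : ℕ}

theorem D2_congr {f g : Cn n → ℝ} {z : Cn n} (h : f =ᶠ[𝓝 z] g) (v w : Cn n) :
    D2 f z v w = D2 g z v w := by
  unfold D2
  have h1 : fderiv ℝ f =ᶠ[𝓝 z] fderiv ℝ g := h.fderiv
  rw [h1.fderiv_eq]

/-- **Sub-mean value inequality**, local version. -/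
theorem submean (f : Cn n → ℝ) (z : Cn n) (r R : ℝ) (hr : 0 ≤ r) (hrR : r < R)
    (hf : ContDiffOn ℝ 2 f (ball z R))
    (hL : ∀ w ∈ closedBall z r, 0 ≤ ∑ k, D2 f w (vk k) (vk k)) :
    f z * kap n ≤ ∫ y, f (z + r • y) * chi y := by
  let ζ : ContDiffBump z := ⟨(2 * r + R) / 3, (r + 2 * R) / 3, by linarith, by linarith⟩
  set g : Cn n → ℝ := fun w => ζ w * f w with hg
  have hζ1 : ∀ w ∈ closedBall z ((2 * r + R) / 3), ζ w = 1 := fun w hw =>
    ζ.one_of_mem_closedBall hw
  have hgc : ContDiff ℝ 2 g := by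
    rw [contDiff_iff_contDiffAt]
    intro w
    by_cases hw : w ∈ ball z R
    · exact (ζ.contDiff.contDiffAt).mul (hf.contDiffAt (isOpen_ball.mem_nhds hw))
    · have hw' : w ∉ tsupport ζ := by
        rw [ζ.tsupport_eq]
        intro h
        rw [mem_closedBall] at h
        apply hw
        rw [mem_ball]
        show dist w z < R
        have : (r + 2 * R) / 3 < R := by linarith
        exact lt_of_le_of_lt h this
      have h0 : g =ᶠ[𝓝 w] fun _ => 0 := by
        have h1 := notMem_tsupport_iff_eventuallyEq.1 hw'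
        filter_upwards [h1] with x hx
        simp [hg, hx]
      exact contDiffAt_const.congr_of_eventuallyEq h0
  have hsub : closedBall z r ⊆ ball z ((2 * r + R) / 3) := closedBall_subset_ball (by linarith)
  have hge : ∀ w ∈ closedBall z r, g =ᶠ[𝓝 w] f := by
    intro w hw
    filter_upwards [isOpen_ball.mem_nhds (hsub hw)] with x hx
    simp [hg, hζ1 x (ball_subset_closedBall hx)]
  have key := submean_global g hgc z r hr (fun w hw => by
    have := hL w hw
    refine this.trans_eq (Finset.sum_congr rfl fun k _ => ?_)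
    exact (D2_congr (hge w hw) _ _).symm)
  have e1 : g z = f z := (hge z (mem_closedBall_self hr)).eq_of_nhds
  have e2 : ∀ y : Cn n, g (z + r • y) * chi y = f (z + r • y) * chi y := by
    intro y
    by_cases hy : ‖y‖ ≤ 1
    · have hm : z + r • y ∈ closedBall z r := by
        rw [mem_closedBall, dist_eq_norm, add_sub_cancel_left, norm_smul, Real.norm_of_nonneg hr]
        calc r * ‖y‖ ≤ r * 1 := mul_le_mul_of_nonneg_left hy hr
          _ = r := mul_one r
      rw [(hge _ hm).eq_of_nhds]
    · rw [chi_zero (not_le.1 hy)]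
      simp
  rw [e1] at key
  simpa only [e2] using key

/-- If `f` is `C²` near `z` then its restriction to a line is twice differentiable. -/
theorem line_data {f : Cn n → ℝ} {z : Cn n} (hf : ContDiffAt ℝ 2 f z) (v : Cn n) :
    ∃ p : ℝ → ℝ, (∀ᶠ s in 𝓝 (0 : ℝ), HasDerivAt (fun s : ℝ => f (z + s • v)) (p s) s) ∧
      HasDerivAt p (D2 f z v v) 0 := by
  have hline : ∀ s : ℝ, HasDerivAt (fun s : ℝ => z + s • v) v s := by
    intro s
    simpa using ((hasDerivAt_id s).smul_const v).const_add z
  have hcont : ContinuousAt (fun s : ℝ => z + s • v) 0 := (hline 0).continuousAt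
  have hz : z + (0 : ℝ) • v = z := by simp
  have h1 : ∀ᶠ w in 𝓝 z, DifferentiableAt ℝ f w := by
    have : ∀ᶠ w in 𝓝 z, ContDiffAt ℝ 2 f w := hf.eventually (by norm_num)
    filter_upwards [this] with w hw using hw.differentiableAt (by norm_num)
  have h2 : ∀ᶠ s in 𝓝 (0 : ℝ), DifferentiableAt ℝ f (z + s • v) := by
    have := hcont.eventually (p := fun w => DifferentiableAt ℝ f w) (by simpa using h1)
    exact this
  refine ⟨fun s => fderiv ℝ f (z + s • v) v, ?_, ?_⟩
  · filter_upwards [h2] with s hs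
    exact hs.hasFDerivAt.comp_hasDerivAt s (hline s)
  have h4 : HasFDerivAt (fderiv ℝ f) (fderiv ℝ (fderiv ℝ f) z) z := by
    have : ContDiffAt ℝ 1 (fderiv ℝ f) z := hf.fderiv_right (by norm_num)
    exact (this.differentiableAt (by norm_num)).hasFDerivAt
  have h5 : HasDerivAt (fun s : ℝ => fderiv ℝ f (z + s • v)) (fderiv ℝ (fderiv ℝ f) z v) 0 := by
    have h4' : HasFDerivAt (fderiv ℝ f) (fderiv ℝ (fderiv ℝ f) z) (z + (0 : ℝ) • v) := by
      rw [hz]; exact h4
    exact h4'.comp_hasDerivAt (0 : ℝ) (hline 0)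
  have h6 := h5.clm_apply (hasDerivAt_const (0 : ℝ) v)
  rw [map_zero, add_zero] at h6
  exact h6

/-- Second derivative at a local maximum (one variable). -/
theorem second_deriv_nonpos {h p : ℝ → ℝ} {q : ℝ} (hmax : IsLocalMax h 0)
    (hp : ∀ᶠ s in 𝓝 (0 : ℝ), HasDerivAt h (p s) s) (hq : HasDerivAt p q 0) : q ≤ 0 := by
  by_contra hpos
  rw [not_le] at hpos
  have hd : deriv h 0 = 0 := hmax.deriv_eq_zero
  have hp' : deriv h =ᶠ[𝓝 0] p := hp.mono fun s hs => hs.deriv
  have hdd : deriv (deriv h) 0 = q := by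
    rw [hp'.deriv_eq, hq.deriv]
  have hmin : IsLocalMin h 0 :=
    isLocalMin_of_deriv_deriv_pos (by rw [hdd]; exact hpos) hd hp.self_of_nhds.continuousAt
  have hconst : h =ᶠ[𝓝 0] fun _ => h 0 := by
    filter_upwards [hmax, hmin] with s h1 h2
    exact le_antisymm h1 h2
  have h1 : deriv h =ᶠ[𝓝 0] fun _ => 0 := by
    have := hconst.deriv
    filter_upwards [this] with s hs
    rw [hs]
    simp
  rw [← hdd, h1.deriv_eq] at hpos
  simp at hpos

/-- one-sided derivative at a maximum -/
theorem deriv_nonneg_of_left_max {h : ℝ → ℝ} {t₀ t h' : ℝ} (ht : t₀ < t) (hd : HasDerivAt h h' t)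
    (hmax : ∀ s ∈ Icc t₀ t, h s ≤ h t) : 0 ≤ h' := by
  have h1 := hd.hasDerivWithinAt (s := Iio t)
  have h2 := hasDerivWithinAt_iff_tendsto_slope.1 h1
  have hne : Iio t \ {t} = Iio t := by
    ext s
    simp only [Set.mem_sdiff, mem_Iio, mem_singleton_iff]
    constructor
    · exact fun h => h.1
    · exact fun h => ⟨h, h.ne⟩
  rw [hne] at h2
  refine ge_of_tendsto h2 ?_
  have : ∀ᶠ s in 𝓝[<] t, s ∈ Ioo t₀ t := Ioo_mem_nhdsLT ht
  filter_upwards [this] with s hs
  have h3 := hmax s ⟨hs.1.le, hs.2.le⟩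
  rw [slope_def_field]
  refine div_nonneg_of_nonpos ?_ ?_
  · linarith
  · linarith [hs.2]

/-- the trace of the complex Hessian is a quarter of the Laplacian -/
theorem trace_cHess (f : Cn n → ℝ) (z : Cn n) :
    (cHess f z).trace.re = (1 / 4) * ∑ k, D2 f z (vk k) (vk k) := by
  unfold Matrix.trace cHess
  rw [Complex.re_sum, Fintype.sum_sum_type, ← Finset.sum_add_distrib, Finset.mul_sum]
  refine Finset.sum_congr rfl fun i _ => ?_
  simp only [Matrix.diag_apply, Matrix.of_apply, vk]
  simp [Complex.mul_re]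
  try norm_num

/-- arithmetic-geometric mean inequality for the determinant of a positive definite matrix -/
theorem log_det_le (hn : 1 ≤ n) (H : Matrix (Fin n) (Fin n) ℂ) (hH : H.PosDef) :
    0 < H.trace.re ∧ Real.log H.det.re ≤ n * Real.log (H.trace.re / n) := by
  have hherm := hH.isHermitian
  have hev : ∀ i, 0 < hherm.eigenvalues i := hH.eigenvalues_pos
  have htr : H.trace.re = ∑ i, hherm.eigenvalues i := by
    rw [hherm.trace_eq_sum_eigenvalues]
    simp
  have hdet : H.det.re = ∏ i, hherm.eigenvalues i := by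
    rw [hherm.det_eq_prod_eigenvalues]
    simp
    rw [← Complex.ofReal_prod]
    exact Complex.ofReal_re _
  have hne : (Finset.univ : Finset (Fin n)).Nonempty := ⟨⟨0, hn⟩, Finset.mem_univ _⟩
  have hnpos : (0 : ℝ) < n := by exact_mod_cast hn
  have htpos : 0 < ∑ i, hherm.eigenvalues i := Finset.sum_pos (fun i _ => hev i) hne
  refine ⟨htr ▸ htpos, ?_⟩
  rw [htr, hdet, Real.log_prod (fun i _ => (hev i).ne')]
  -- each `log λ_i ≤ log m + λ_i / m - 1`
  set m := (∑ i, hherm.eigenvalues i) / n with hm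
  have hmpos : 0 < m := div_pos htpos hnpos
  have h1 : ∀ i, Real.log (hherm.eigenvalues i) ≤ Real.log m + (hherm.eigenvalues i / m - 1) := by
    intro i
    have := Real.log_le_sub_one_of_pos (div_pos (hev i) hmpos)
    rw [Real.log_div (hev i).ne' hmpos.ne'] at this
    linarith
  calc ∑ i, Real.log (hherm.eigenvalues i)
      ≤ ∑ i, (Real.log m + (hherm.eigenvalues i / m - 1)) := Finset.sum_le_sum fun i _ => h1 i
    _ = n * Real.log m + ((∑ i, hherm.eigenvalues i) / m - n) := by
        rw [Finset.sum_add_distrib, Finset.sum_sub_distrib, ← Finset.sum_div]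
        simp
    _ = n * Real.log m := by
        have : (∑ i, hherm.eigenvalues i) / m = n := by
          rw [hm]
          field_simp
        rw [this]
        ring

end Pool.Agent.NH66.MAFlow
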