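import Pool.Agent.NH66.MAFlow.Hartogs

/-!
# Non-existence for positive Lelong numbers; the logarithmic pole on the ball
-/

open Set Filter Topology MeasureTheory Metric
open scoped ComplexOrder

noncomputable section

namespace Pool.Agent.NH66.MAFlow

variable {n : ℕ} {Ω : Set (Cn n)} {T : ℝ} {u₀ : Cn n → EReal} {φ u : Cn n → ℝ → ℝ}

theorem no_solution (hn : 1 ≤ n) (hD : IsData Ω T u₀ φ) {z₀ : Cn n} (hz₀ : z₀ ∈ Ω) {c : ℝ}
    (hc : 0 < c)
    (hL : ∀ᶠ z in 𝓝[≠] z₀, u₀ z ≤ ((c * Real.log ‖z - z₀‖ : ℝ) : EReal)) :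
    ¬ ∃ u, IsSolution Ω T u₀ φ u := by
  rintro ⟨u, hS⟩
  have hΩ : IsOpen Ω := hD.domain.1
  have hT := hD.pos
  have hn0 : (0 : ℝ) < n := by exact_mod_cast hn
  -- choice of the radius
  obtain ⟨r₁, hr₁, hb₁⟩ := Metric.isOpen_iff.1 hΩ z₀ hz₀
  obtain ⟨r₂, hr₂, hb₂⟩ := Metric.mem_nhdsWithin_iff.1 hL
  set r : ℝ := min (min (r₁ / 2) (r₂ / 2)) 1 with hr
  have hr0 : 0 < r := lt_min (lt_min (by linarith) (by linarith)) one_pos
  have hr1 : r ≤ 1 := min_le_right _ _
  have hrr₁ : r < r₁ := by
    have : r ≤ r₁ / 2 := (min_le_left _ _).trans (min_le_left _ _)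
    linarith
  have hrr₂ : r < r₂ := by
    have : r ≤ r₂ / 2 := (min_le_left _ _).trans (min_le_right _ _)
    linarith
  have hball : closedBall z₀ r ⊆ Ω := (closedBall_subset_ball hrr₁).trans hb₁
  have hu₀ : ∀ z ∈ closedBall z₀ r, z ≠ z₀ → u₀ z ≤ ((c * Real.log ‖z - z₀‖ : ℝ) : EReal) :=
    fun z hz hne => hb₂ ⟨closedBall_subset_ball hrr₂ hz, hne⟩
  -- choice of the time
  set t₁ : ℝ := min (T / 2) (c / (4 * n)) with ht₁
  have ht₁0 : 0 < t₁ := lt_min (by linarith) (by positivity)
  have ht₁T : t₁ < T := (min_le_left _ _).trans_lt (by linarith)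
  have ht₁c : 2 * n * t₁ ≤ c / 2 := by
    have h1 : t₁ ≤ c / (4 * n) := min_le_right _ _
    calc 2 * n * t₁ ≤ 2 * n * (c / (4 * n)) := by gcongr
      _ = c / 2 := by field_simp; ring
  obtain ⟨M, hM⟩ := upper_bound hn hD hS ht₁T
  set K : ℝ := max 0 (M - c * Real.log r) with hK
  have hK0 : 0 ≤ K := le_max_left _ _
  have hKM : M ≤ c * Real.log r + K := by
    have := le_max_right 0 (M - c * Real.log r)
    linarith
  set A : ℝ := n * |Real.log (c / 2)| + 1 with hA
  have hA0 : 0 < A := by positivity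
  have key : ∀ η : ℝ, 0 < η → η < 1 →
      u z₀ t₁ ≤ c / 2 * Real.log η + (A * t₁ + K + 1) := by
    intro η hη hη1
    obtain ⟨t₀, ht₀, hinit⟩ := hartogs hn hΩ hS hball hr0 hc hη ht₁0 ht₁T hM hKM hK0 hu₀
    have ht₀t₁ : t₀ < t₁ := ht₀.2.trans_le (min_le_right _ _)
    have hcomp := comparison hn hΩ hS hr0 hr1 hball hη ht₀.1 ht₁T (by
      have : 2 * n * (t₁ - t₀) ≤ 2 * n * t₁ := by
        have := ht₀.1
        gcongr
        linarith
      linarith) hM hKM hinit z₀ (mem_closedBall_self hr0.le) t₁ ⟨ht₀t₁.le, le_rfl⟩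
    rw [sub_self, norm_zero] at hcomp
    have h1 : Real.log ((0 : ℝ) ^ 2 + η ^ 2) = 2 * Real.log η := by
      rw [zero_pow two_ne_zero, zero_add, Real.log_pow]
      norm_num
    rw [h1, ← hA] at hcomp
    have h2 : Real.log η ≤ 0 := Real.log_nonpos hη.le hη1.le
    have h3 : (c - 2 * n * (t₁ - t₀)) / 2 * (2 * Real.log η) ≤ c / 2 * Real.log η := by
      have h4 : c / 2 ≤ c - 2 * n * (t₁ - t₀) := by
        have : 0 ≤ 2 * n * t₀ := by
          have := ht₀.1
          positivity
        nlinarith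
      calc (c - 2 * n * (t₁ - t₀)) / 2 * (2 * Real.log η)
          = (c - 2 * n * (t₁ - t₀)) * Real.log η := by ring
        _ ≤ c / 2 * Real.log η := mul_le_mul_of_nonpos_right h4 h2
    have h5 : A * (t₁ - t₀) ≤ A * t₁ := by
      have := ht₀.1
      gcongr
      linarith
    linarith
  -- let `η → 0`
  set C : ℝ := A * t₁ + K + 1 with hC
  set L : ℝ := max 1 (2 / c * (C - u z₀ t₁ + 1)) with hLdef
  have hL1 : 1 ≤ L := le_max_left _ _
  have hL2 : 2 / c * (C - u z₀ t₁ + 1) ≤ L := le_max_right _ _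
  have h := key (Real.exp (-L)) (Real.exp_pos _) (by
    rw [Real.exp_lt_one_iff]
    linarith)
  rw [Real.log_exp] at h
  have h2 : C - u z₀ t₁ + 1 ≤ c / 2 * L := by
    calc C - u z₀ t₁ + 1 = c / 2 * (2 / c * (C - u z₀ t₁ + 1)) := by field_simp
      _ ≤ c / 2 * L := by gcongr
  linarith

/-! ### The logarithmic pole -/

/-- `c log |z|`, with the value `-∞` at the origin. -/
def logPole (n : ℕ) (c : ℝ) (z : Cn n) : EReal :=
  if z = 0 then ⊥ else ((c * Real.log ‖z‖ : ℝ) : EReal)

theorem logPole_of_ne {c : ℝ} {z : Cn n} (h : z ≠ 0) :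
    logPole n c z = ((c * Real.log ‖z‖ : ℝ) : EReal) := if_neg h

theorem logPole_zero (c : ℝ) : logPole n c 0 = ⊥ := if_pos rfl

theorem logPole_usc {c : ℝ} (hc : 0 < c) : UpperSemicontinuousOn (logPole n c) univ := by
  intro z _ y hy
  rw [nhdsWithin_univ]
  by_cases hz : z = 0
  · subst hz
    rw [logPole_zero] at hy
    -- `y > ⊥`
    obtain ⟨q, hq⟩ := EReal.lt_iff_exists_real_btwn.1 hy
    have h1 : ∀ᶠ w : Cn n in 𝓝 0, ‖w‖ < Real.exp (q / c) := by
      have : Tendsto (fun w : Cn n => ‖w‖) (𝓝 0) (𝓝 0) := by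
        simpa using (continuous_norm (E := Cn n)).tendsto 0
      exact this.eventually_lt_const (Real.exp_pos _)
    filter_upwards [h1] with w hw
    by_cases hw0 : w = 0
    · rw [hw0, logPole_zero]
      exact hy
    · rw [logPole_of_ne hw0]
      refine lt_trans ?_ hq.2
      rw [EReal.coe_lt_coe_iff]
      have h2 : Real.log ‖w‖ < q / c := by
        rw [← Real.log_exp (q / c)]
        exact Real.log_lt_log (norm_pos_iff.2 hw0) hw
      rw [lt_div_iff₀ hc] at h2
      linarith
  · rw [logPole_of_ne hz] at hy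
    have h1 : ContinuousAt (fun w : Cn n => ((c * Real.log ‖w‖ : ℝ) : EReal)) z := by
      have h2 : ContinuousAt (fun w : Cn n => c * Real.log ‖w‖) z :=
        (continuous_norm.continuousAt.log (norm_ne_zero_iff.2 hz)).const_mul c
      exact (continuous_coe_real_ereal.continuousAt).comp h2
    filter_upwards [h1.eventually_lt_const hy, isOpen_ne.mem_nhds hz] with w hw hw0
    rw [logPole_of_ne hw0]
    exact hw

theorem ae_exp_ne (w : ℂ) : ∀ᵐ θ : ℝ, Complex.exp (θ * Complex.I) ≠ w := by
  have hcount : {θ : ℝ | Complex.exp (θ * Complex.I) = w}.Countable := by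
    by_cases hne : ∃ θ₀ : ℝ, Complex.exp (θ₀ * Complex.I) = w
    · obtain ⟨θ₀, hθ₀⟩ := hne
      refine (countable_range fun k : ℤ => θ₀ + k * (2 * Real.pi)).mono ?_
      intro θ hθ
      rw [mem_ofPred_eq, ← hθ₀, Complex.exp_eq_exp_iff_exists_int] at hθ
      obtain ⟨k, hk⟩ := hθ
      refine ⟨k, ?_⟩
      have h1 : ((θ : ℂ) - (θ₀ + k * (2 * Real.pi))) * Complex.I = 0 := by
        rw [sub_mul, hk]
        ring
      have h2 : (θ : ℂ) - (θ₀ + k * (2 * Real.pi)) = 0 :=
        (mul_eq_zero.1 h1).resolve_right Complex.I_ne_zero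
      have h3 : (θ : ℂ) = ((θ₀ + k * (2 * Real.pi) : ℝ) : ℂ) := by
        push_cast
        linear_combination h2
      exact (Complex.ofReal_injective h3).symm
    · push Not at hne
      have : {θ : ℝ | Complex.exp (θ * Complex.I) = w} = ∅ := by
        ext θ
        simp [hne θ]
      rw [this]
      exact countable_empty
  have := hcount.ae_notMem (volume : Measure ℝ)
  filter_upwards [this] with θ hθ
  exact hθ

theorem circle_log (α : ℝ) (hα : 0 < α) (β : ℂ) :
    IntervalIntegrable (fun θ : ℝ => Real.log ‖(α : ℂ) + Complex.exp (θ * Complex.I) * β‖)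
      volume 0 (2 * Real.pi) ∧
    2 * Real.pi * Real.log α ≤
      ∫ θ in (0 : ℝ)..(2 * Real.pi), Real.log ‖(α : ℂ) + Complex.exp (θ * Complex.I) * β‖ := by
  have hpi : 0 < 2 * Real.pi := by positivity
  by_cases hβ : β = 0
  · subst hβ
    simp only [mul_zero, add_zero, Complex.norm_real, Real.norm_of_nonneg hα.le]
    refine ⟨_root_.intervalIntegrable_const, ?_⟩
    rw [intervalIntegral.integral_const]
    simp
  · set w : ℂ := -(α / β) with hw
    have h1 : ∀ᵐ θ : ℝ, Real.log ‖(α : ℂ) + Complex.exp (θ * Complex.I) * β‖ =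
        Real.log ‖β‖ + Real.log ‖circleMap 0 1 θ - w‖ := by
      filter_upwards [ae_exp_ne w] with θ hθ
      have h2 : circleMap 0 1 θ - w ≠ 0 := by
        rw [circleMap_zero]
        simpa [sub_ne_zero] using hθ
      rw [← Real.log_mul (norm_ne_zero_iff.2 hβ) (norm_ne_zero_iff.2 h2), ← norm_mul]
      congr 2
      rw [circleMap_zero, hw]
      field_simp
      push_cast
      ring
    have hint : IntervalIntegrable (fun θ : ℝ => Real.log ‖circleMap 0 1 θ - w‖) volume 0
        (2 * Real.pi) := circleIntegrable_log_norm_sub_const (a := w) (c := 0) 1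
    have havg := circleAverage_log_norm_sub_const_eq_posLog (a := w)
    rw [Real.circleAverage_def, smul_eq_mul] at havg
    have hI : ∫ θ in (0 : ℝ)..(2 * Real.pi), Real.log ‖circleMap 0 1 θ - w‖ =
        2 * Real.pi * Real.posLog ‖w‖ := by
      rw [← havg]
      field_simp
    have h1' : ∀ᵐ θ : ℝ, θ ∈ Set.uIoc (0 : ℝ) (2 * Real.pi) →
        Real.log ‖(α : ℂ) + Complex.exp (θ * Complex.I) * β‖ =
        Real.log ‖β‖ + Real.log ‖circleMap 0 1 θ - w‖ := h1.mono fun θ h _ => h
    constructor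
    · have h2 : IntervalIntegrable (fun θ : ℝ => Real.log ‖β‖ + Real.log ‖circleMap 0 1 θ - w‖)
          volume 0 (2 * Real.pi) := _root_.intervalIntegrable_const.add hint
      exact h2.congr_ae ((ae_restrict_of_ae h1).mono fun θ h => h.symm)
    · rw [intervalIntegral.integral_congr_ae h1', intervalIntegral.integral_add
        _root_.intervalIntegrable_const hint, hI, intervalIntegral.integral_const, sub_zero,
        smul_eq_mul]
      have h3 : Real.log ‖w‖ ≤ Real.posLog ‖w‖ := le_max_right _ _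
      have h4 : Real.log ‖w‖ = Real.log α - Real.log ‖β‖ := by
        rw [hw, norm_neg, norm_div, Complex.norm_real, Real.norm_of_nonneg hα.le,
          Real.log_div hα.ne' (norm_ne_zero_iff.2 hβ)]
      nlinarith

theorem logPole_psh {c : ℝ} (hc : 0 < c) : IsPSH univ (logPole n c) := by
  refine ⟨fun z _ => ?_, logPole_usc hc, ?_⟩
  · unfold logPole
    split_ifs
    · exact bot_lt_top
    · exact EReal.coe_lt_top _
  intro a b _ M hM
  by_cases ha : a = 0
  · subst ha
    rw [logPole_zero]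
    have h1 : ((M : EReal) - ⊥).toENNReal = ⊤ := by
      rw [EReal.coe_sub_bot]
      exact EReal.toENNReal_top
    rw [h1, ENNReal.mul_top]
    · exact le_top
    · rw [Ne, ENNReal.ofReal_eq_zero, not_le]
      positivity
  · set α : ℝ := ‖a‖ with hα
    have hα0 : 0 < α := norm_pos_iff.2 ha
    set e : Cn n := ((α⁻¹ : ℝ) : ℂ) • a with he
    have hen : ‖e‖ = 1 := by
      rw [he, norm_smul, Complex.norm_real, norm_inv, Real.norm_of_nonneg hα0.le,
        inv_mul_cancel₀ hα0.ne']
    set β : ℂ := inner ℂ e b with hβ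
    have hea : inner ℂ e a = (α : ℂ) := by
      rw [he, inner_smul_left, inner_self_eq_norm_sq_to_K]
      simp only [Complex.conj_ofReal]
      rw [← hα]
      push_cast
      field_simp
      rfl
    have hle : ∀ l : ℂ, ‖(α : ℂ) + l * β‖ ≤ ‖a + l • b‖ := by
      intro l
      have h1 : (α : ℂ) + l * β = inner ℂ e (a + l • b) := by
        rw [inner_add_right, inner_smul_right, hea]
      rw [h1]
      calc ‖inner ℂ e (a + l • b)‖ ≤ ‖e‖ * ‖a + l • b‖ := norm_inner_le_norm _ _
        _ = ‖a + l • b‖ := by rw [hen, one_mul]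
    obtain ⟨hint, hbound⟩ := circle_log α hα0 β
    have hpi : (0 : ℝ) ≤ 2 * Real.pi := by positivity
    set f : ℝ → ℝ := fun θ => M - c * Real.log ‖(α : ℂ) + Complex.exp (θ * Complex.I) * β‖ with hf
    have hfint : IntegrableOn f (Icc 0 (2 * Real.pi)) := by
      rw [integrableOn_Icc_iff_integrableOn_Ioc]
      refine Integrable.sub (integrable_const M) ?_
      exact (((intervalIntegrable_iff_integrableOn_Ioc_of_le hpi).1 hint).const_mul c)
    have hcirc : ∀ θ : ℝ, ‖Complex.exp (θ * Complex.I)‖ = 1 := fun θ =>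
      Complex.norm_exp_ofReal_mul_I θ
    -- a.e. nonvanishing
    have hne : ∀ᵐ θ : ℝ, (α : ℂ) + Complex.exp (θ * Complex.I) * β ≠ 0 := by
      by_cases hβ0 : β = 0
      · refine Eventually.of_forall fun θ => ?_
        rw [hβ0, mul_zero, add_zero]
        exact_mod_cast hα0.ne'
      · filter_upwards [ae_exp_ne (-(α / β))] with θ hθ h0
        apply hθ
        field_simp
        linear_combination h0
    have hpt : ∀ᵐ θ : ℝ, 0 ≤ f θ ∧
        ((M : EReal) - logPole n c (a + Complex.exp (θ * Complex.I) • b)).toENNReal ≤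
          ENNReal.ofReal (f θ) := by
      filter_upwards [hne] with θ hθ
      have h1 : 0 < ‖(α : ℂ) + Complex.exp (θ * Complex.I) * β‖ := norm_pos_iff.2 hθ
      have h2 := hle (Complex.exp (θ * Complex.I))
      have h3 : a + Complex.exp (θ * Complex.I) • b ≠ 0 := norm_pos_iff.1 (h1.trans_le h2)
      have h4 := hM _ (hcirc θ)
      rw [logPole_of_ne h3, EReal.coe_le_coe_iff] at h4
      have h5 := Real.log_le_log h1 h2
      have h6 : c * Real.log ‖(α : ℂ) + Complex.exp (θ * Complex.I) * β‖ ≤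
          c * Real.log ‖a + Complex.exp (θ * Complex.I) • b‖ := by gcongr
      refine ⟨by simp only [hf]; linarith, ?_⟩
      rw [logPole_of_ne h3, ← EReal.coe_sub, EReal.toENNReal_of_ne_top (EReal.coe_ne_top _),
        EReal.toReal_coe]
      refine ENNReal.ofReal_le_ofReal ?_
      simp only [hf]
      linarith
    have hint2 : ∫ θ in Icc 0 (2 * Real.pi), f θ ≤ 2 * Real.pi * (M - c * Real.log α) := by
      rw [integral_Icc_eq_integral_Ioc, ← intervalIntegral.integral_of_le hpi]
      simp only [hf]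
      rw [intervalIntegral.integral_sub _root_.intervalIntegrable_const (hint.const_mul c),
        intervalIntegral.integral_const, intervalIntegral.integral_const_mul, sub_zero,
        smul_eq_mul]
      nlinarith
    calc ∫⁻ θ in Icc (0 : ℝ) (2 * Real.pi),
          ((M : EReal) - logPole n c (a + Complex.exp (θ * Complex.I) • b)).toENNReal
        ≤ ∫⁻ θ in Icc (0 : ℝ) (2 * Real.pi), ENNReal.ofReal (f θ) :=
          lintegral_mono_ae (ae_restrict_of_ae (hpt.mono fun θ h => h.2))
      _ = ENNReal.ofReal (∫ θ in Icc 0 (2 * Real.pi), f θ) := by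
          rw [ofReal_integral_eq_lintegral_ofReal hfint
            (ae_restrict_of_ae (hpt.mono fun θ h => h.1))]
      _ ≤ ENNReal.ofReal (2 * Real.pi * (M - c * Real.log α)) := ENNReal.ofReal_le_ofReal hint2
      _ = ENNReal.ofReal (2 * Real.pi) * ((M : EReal) - logPole n c a).toENNReal := by
          rw [ENNReal.ofReal_mul hpi, logPole_of_ne ha, ← EReal.coe_sub,
            EReal.toENNReal_of_ne_top (EReal.coe_ne_top _), EReal.toReal_coe]

/-! ### The unit ball -/

theorem hess_norm_sq (z v w : Cn n) : D2 (fun z : Cn n => ‖z‖ ^ 2 - 1) z v w =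
    2 * inner ℝ v w := by
  unfold D2
  have h1 : (fderiv ℝ fun z : Cn n => ‖z‖ ^ 2 - 1) = fun z => (2 : ℝ) • (innerSL ℝ z) := by
    funext z
    have : HasFDerivAt (fun z : Cn n => ‖z‖ ^ 2 - 1) (2 • (innerSL ℝ z)) z :=
      (hasStrictFDerivAt_norm_sq z).hasFDerivAt.sub_const 1
    rw [this.fderiv]
    ext v
    simp
  rw [h1]
  have h2 : HasFDerivAt (fun z : Cn n => (2 : ℝ) • (innerSL ℝ z)) ((2 : ℝ) • innerSL ℝ) z :=
    (innerSL ℝ).hasFDerivAt.const_smul (2 : ℝ)
  rw [h2.fderiv]
  simp
  rfl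

theorem ball_strictlyPseudoconvex : IsStrictlyPseudoconvexDomain (ball (0 : Cn n) 1) := by
  refine ⟨isOpen_ball, ⟨⟨0, mem_ball_self one_pos⟩, (convex_ball _ _).isPreconnected⟩,
    isBounded_ball, univ, fun z => ‖z‖ ^ 2 - 1, isOpen_univ, subset_univ _, ?_, ?_, ?_, ?_⟩
  · exact ((contDiff_norm_sq ℝ).sub contDiff_const).contDiffOn
  · intro z _
    have h1 : cHess (fun z : Cn n => ‖z‖ ^ 2 - 1) z = 1 := by
      ext i j
      simp only [cHess, Matrix.of_apply, hess_norm_sq]
      have e1 : ∀ i j : Fin n, inner ℝ (ex i : Cn n) (ex j) = if i = j then (1 : ℝ) else 0 := by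
        intro i j
        rw [show (ex j : Cn n) = vk (Sum.inl j) from rfl, inner_vk]
        simp only [ck, ex, PiLp.single_apply]
        split_ifs with h1 h2 h3
        · simp
        · exact absurd h1.symm h2
        · exact absurd h3.symm h1
        · simp
      have e2 : ∀ i j : Fin n, inner ℝ (ey i : Cn n) (ey j) = if i = j then (1 : ℝ) else 0 := by
        intro i j
        rw [show (ey j : Cn n) = vk (Sum.inr j) from rfl, inner_vk]
        simp only [ck, ey, PiLp.single_apply]
        split_ifs with h1 h2 h3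
        · simp
        · exact absurd h1.symm h2
        · exact absurd h3.symm h1
        · simp
      have e3 : ∀ i j : Fin n, inner ℝ (ex i : Cn n) (ey j) = 0 := by
        intro i j
        rw [show (ey j : Cn n) = vk (Sum.inr j) from rfl, inner_vk]
        simp only [ck, ex, PiLp.single_apply]
        split_ifs <;> simp
      have e4 : ∀ i j : Fin n, inner ℝ (ey i : Cn n) (ex j) = 0 := by
        intro i j
        rw [show (ex j : Cn n) = vk (Sum.inl j) from rfl, inner_vk]
        simp only [ck, ey, PiLp.single_apply]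
        split_ifs <;> simp
      rw [e1, e2, e3, e4, Matrix.one_apply]
      split_ifs
      · push_cast
        norm_num
      · simp
    rw [h1]
    exact Matrix.PosDef.one
  · ext z
    simp only [mem_ball_zero_iff, mem_ofPred_eq, mem_univ, true_and, sub_neg]
    constructor
    · intro h
      have := norm_nonneg z
      nlinarith
    · intro h
      by_contra hcon
      rw [not_lt] at hcon
      nlinarith
  · intro z hz h0
    rw [frontier_ball _ one_ne_zero, mem_sphere_zero_iff_norm] at hz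
    have : HasFDerivAt (fun z : Cn n => ‖z‖ ^ 2 - 1) (2 • (innerSL ℝ z)) z :=
      (hasStrictFDerivAt_norm_sq z).hasFDerivAt.sub_const 1
    rw [this.fderiv] at h0
    have h1 := congrArg (fun L => L z) h0
    simp [hz] at h1

theorem logPole_data {c : ℝ} (hT : 0 < T) (hc : 0 < c) :
    IsData (ball (0 : Cn n) 1) T (logPole n c) (fun _ _ => 0) where
  domain := ball_strictlyPseudoconvex
  pos := hT
  psh := ⟨univ, isOpen_univ, subset_univ _, logPole_psh hc⟩
  smooth := contDiffOn_const
  boundary := by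
    intro z hz t _
    rw [frontier_ball _ one_ne_zero, mem_sphere_zero_iff_norm] at hz
    have hz0 : z ≠ 0 := by
      rw [← norm_pos_iff, hz]
      exact one_pos
    rw [logPole_of_ne hz0, hz, Real.log_one, mul_zero]

end Pool.Agent.NH66.MAFlow
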